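import Mathlib

/-!
# FD: full dynamical Mordell-Lang for a positive proportion of the endomorphisms of `P^N`

Shared definitions.
-/

set_option autoImplicit false

namespace Pool.Agent.Helper26.FD

open MvPolynomial

noncomputable section

/-- the self-map of `R ^ n` given by `n` integral polynomials -/
def fmap {n : ℕ} (R : Type*) [CommRing R] (F : Fin n → MvPolynomial (Fin n) ℤ) (x : Fin n → R) :
    Fin n → R :=
  fun i => aeval x (F i)

/-- In characteristic `p` the polynomials `F i` have no common nontrivial zero, and the Jacobian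
determinant does not vanish at the nonzero periodic points. -/
def GoodAt {n : ℕ} (p : ℕ) (F : Fin n → MvPolynomial (Fin n) ℤ) : Prop :=
  ∀ (k : Type) [Field k] [CharP k p] (x : Fin n → k), x ≠ 0 → fmap k F x ≠ 0 ∧
    ∀ m, 1 ≤ m → (fmap k F)^[m] x = x → (Matrix.of fun i j => aeval x (pderiv j (F i))).det ≠ 0

/-- the box: integral tuples of forms of degree `d`, with coefficients near `B * A` and congruent to
those of `F₀` modulo `m` -/
def cbox (N d m : ℕ) (A : Fin (N + 1) → MvPolynomial (Fin (N + 1)) ℝ) (ε : ℝ)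
    (F₀ : Fin (N + 1) → MvPolynomial (Fin (N + 1)) ℤ) (B : ℕ) :
    Set (Fin (N + 1) → MvPolynomial (Fin (N + 1)) ℤ) :=
  {F | ∀ i, (F i).IsHomogeneous d ∧ ∀ s, |((coeff s (F i) : ℤ) : ℝ) - B * coeff s (A i)| ≤ ε * B ∧
    (m : ℤ) ∣ coeff s (F i) - coeff s (F₀ i)}

end

end Pool.Agent.Helper26.FD
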