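import Mathlib
import Pool.Agent.Helper26.FD.Defs
import Pool.Agent.Helper86.PN.Count

/-!
# FD: counting tuples of forms in residue classes
-/

set_option autoImplicit false

namespace Pool.Agent.Helper26.FD

open MvPolynomial Finset Pool.Agent.Helper86.PN

noncomputable section

/-- integers of `[a, b)` in residue classes -/
theorem count_class {a b v w : ℤ} {m p : ℕ} (hm : 1 ≤ m) (hp : 1 ≤ p) (hmp : m.Coprime p)
    (hab : 4 * (m * p : ℤ) ≤ b - a) :
    (1 / (2 * (p : ℝ))) * (((Ico a b).filter fun z => (m : ℤ) ∣ z - v).card : ℝ) ≤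
      ((((Ico a b).filter fun z => (m : ℤ) ∣ z - v).filter fun z => (p : ℤ) ∣ z - w).card : ℝ) := by
  obtain ⟨u, hu1, hu2⟩ : ∃ u : ℤ, (m : ℤ) ∣ u - v ∧ (p : ℤ) ∣ u - w := by
    have hcop : IsCoprime (m : ℤ) (p : ℤ) := Nat.isCoprime_iff_coprime.2 hmp
    obtain ⟨r, s, hrs⟩ := hcop
    refine ⟨v + r * m * (w - v), ⟨r * (w - v), by ring⟩, ?_⟩
    refine ⟨-(s * (w - v)), ?_⟩
    linear_combination (w - v) * hrs
  have hS : ((Ico a b).filter fun z => (m : ℤ) ∣ z - v) =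
      (Ico a b).filter fun z => z ≡ v [ZMOD (m : ℤ)] := by
    refine filter_congr fun z _ => ?_
    rw [Int.modEq_comm, Int.modEq_iff_dvd]
  have hT : (((Ico a b).filter fun z => (m : ℤ) ∣ z - v).filter fun z => (p : ℤ) ∣ z - w) =
      (Ico a b).filter fun z => z ≡ u [ZMOD ((m * p : ℕ) : ℤ)] := by
    rw [filter_filter]
    refine filter_congr fun z _ => ?_
    rw [Int.modEq_comm, Int.modEq_iff_dvd]
    constructor
    · rintro ⟨h1, h2⟩
      push_cast
      refine IsCoprime.mul_dvd (Nat.isCoprime_iff_coprime.2 hmp) ?_ ?_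
      · have := dvd_sub h1 hu1
        rwa [show z - v - (u - v) = z - u by ring] at this
      · have := dvd_sub h2 hu2
        rwa [show z - w - (u - w) = z - u by ring] at this
    · intro h
      push_cast at h
      have h1 := dvd_add ((Dvd.intro _ rfl : (m : ℤ) ∣ (m : ℤ) * p).trans h) hu1
      have h2 := dvd_add ((Dvd.intro_left _ rfl : (p : ℤ) ∣ (m : ℤ) * p).trans h) hu2
      rw [show z - u + (u - v) = z - v by ring] at h1
      rw [show z - u + (u - w) = z - w by ring] at h2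
      exact ⟨h1, h2⟩
  have hm0 : (0 : ℤ) < m := by exact_mod_cast hm
  have hmp0 : (0 : ℤ) < ((m * p : ℕ) : ℤ) := by exact_mod_cast Nat.mul_pos hm hp
  have h1 := Int.Ico_filter_modEq_card a b (r := (m : ℤ)) hm0 v
  have h2 := Int.Ico_filter_modEq_card a b (r := ((m * p : ℕ) : ℤ)) hmp0 u
  rw [hT, hS]
  -- real estimates
  have hmR : (1 : ℝ) ≤ m := by exact_mod_cast hm
  have hpR : (1 : ℝ) ≤ p := by exact_mod_cast hp
  have hD : 4 * ((m : ℝ) * p) ≤ (b : ℝ) - a := by exact_mod_cast hab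
  set D : ℝ := (b : ℝ) - a with hDdef
  have hS1 : (((Ico a b).filter fun z => z ≡ v [ZMOD (m : ℤ)]).card : ℝ) ≤ D / m + 1 := by
    have h3 : (((Ico a b).filter fun z => z ≡ v [ZMOD (m : ℤ)]).card : ℚ) ≤
        ((b : ℚ) - a) / m + 1 := by
      have h4 : ((((Ico a b).filter fun z => z ≡ v [ZMOD (m : ℤ)]).card : ℤ) : ℚ) =
          ((max (⌈((b : ℚ) - v) / ((m : ℤ) : ℚ)⌉ - ⌈((a : ℚ) - v) / ((m : ℤ) : ℚ)⌉) 0 : ℤ) : ℚ) := by
        exact_mod_cast h1
      have hmQ : (0 : ℚ) < m := by exact_mod_cast hm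
      have hnn : (0 : ℚ) ≤ ((b : ℚ) - a) / m := by
        have : (0 : ℚ) ≤ (b : ℚ) - a := by
          have : (0 : ℤ) ≤ b - a := by
            have : (0 : ℤ) ≤ 4 * (m * p : ℤ) := by positivity
            linarith
          exact_mod_cast this
        positivity
      have h5 := Int.ceil_lt_add_one (((b : ℚ) - v) / ((m : ℤ) : ℚ))
      have h6 := Int.le_ceil (((a : ℚ) - v) / ((m : ℤ) : ℚ))
      have h7 : ((b : ℚ) - v) / ((m : ℤ) : ℚ) - ((a : ℚ) - v) / ((m : ℤ) : ℚ) =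
          ((b : ℚ) - a) / m := by
        push_cast
        ring
      have h8 : (((Ico a b).filter fun z => z ≡ v [ZMOD (m : ℤ)]).card : ℚ) =
          ((((Ico a b).filter fun z => z ≡ v [ZMOD (m : ℤ)]).card : ℤ) : ℚ) := by norm_cast
      rw [h8, h4]
      rw [Int.cast_max]
      apply max_le
      · push_cast at h5 h6 h7 ⊢
        linarith
      · push_cast
        linarith
    have h9 : ((((Ico a b).filter fun z => z ≡ v [ZMOD (m : ℤ)]).card : ℚ) : ℝ) ≤
        ((((b : ℚ) - a) / m + 1 : ℚ) : ℝ) := by exact_mod_cast h3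
    push_cast at h9
    exact h9
  have hT1 : D / (m * p) - 1 ≤
      (((Ico a b).filter fun z => z ≡ u [ZMOD ((m * p : ℕ) : ℤ)]).card : ℝ) := by
    have h3 : ((b : ℚ) - a) / (m * p) - 1 ≤
        (((Ico a b).filter fun z => z ≡ u [ZMOD ((m * p : ℕ) : ℤ)]).card : ℚ) := by
      have h4 : ((((Ico a b).filter fun z => z ≡ u [ZMOD ((m * p : ℕ) : ℤ)]).card : ℤ) : ℚ) =
          ((max (⌈((b : ℚ) - u) / (((m * p : ℕ) : ℤ) : ℚ)⌉ -
            ⌈((a : ℚ) - u) / (((m * p : ℕ) : ℤ) : ℚ)⌉) 0 : ℤ) : ℚ) := by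
        exact_mod_cast h2
      have h5 := Int.ceil_lt_add_one (((a : ℚ) - u) / (((m * p : ℕ) : ℤ) : ℚ))
      have h6 := Int.le_ceil (((b : ℚ) - u) / (((m * p : ℕ) : ℤ) : ℚ))
      have h7 : ((b : ℚ) - u) / (((m * p : ℕ) : ℤ) : ℚ) - ((a : ℚ) - u) / (((m * p : ℕ) : ℤ) : ℚ) =
          ((b : ℚ) - a) / (m * p) := by
        push_cast
        ring
      have h8 : (((Ico a b).filter fun z => z ≡ u [ZMOD ((m * p : ℕ) : ℤ)]).card : ℚ) =
          ((((Ico a b).filter fun z => z ≡ u [ZMOD ((m * p : ℕ) : ℤ)]).card : ℤ) : ℚ) := by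
        norm_cast
      rw [h8, h4, Int.cast_max]
      refine le_max_of_le_left ?_
      push_cast at h5 h6 h7 ⊢
      linarith
    have h9 : ((((b : ℚ) - a) / (m * p) - 1 : ℚ) : ℝ) ≤
        ((((Ico a b).filter fun z => z ≡ u [ZMOD ((m * p : ℕ) : ℤ)]).card : ℚ) : ℝ) := by
      exact_mod_cast h3
    push_cast at h9
    exact h9
  refine le_trans (mul_le_mul_of_nonneg_left hS1 (by positivity)) (le_trans ?_ hT1)
  have hmp1 : 0 < (m : ℝ) * p := by positivity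
  have h10 : 4 ≤ D / (m * p) := by
    rw [le_div_iff₀ hmp1]
    exact hD
  have h11 : 1 / (2 * (p : ℝ)) * (D / m + 1) = (D / (m * p)) / 2 + 1 / (2 * p) := by
    field_simp
  rw [h11]
  have h12 : 1 / (2 * (p : ℝ)) ≤ 1 := by
    rw [div_le_one (by positivity)]
    linarith
  linarith

/-- the count of one coefficient -/
theorem count_one {m p : ℕ} (hm : 1 ≤ m) (hp : 1 ≤ p) (hmp : m.Coprime p) {x e : ℝ} (v w : ℤ)
    (he : 4 * ((m : ℝ) * p) + 2 ≤ 2 * e) :
    ∃ S : Finset ℤ, (∀ z : ℤ, z ∈ S ↔ |(z : ℝ) - x| ≤ e ∧ (m : ℤ) ∣ z - v) ∧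
      (1 / (2 * (p : ℝ))) * (S.card : ℝ) ≤ ((S.filter fun z => (p : ℤ) ∣ z - w).card : ℝ) := by
  refine ⟨(Ico ⌈x - e⌉ (⌊x + e⌋ + 1)).filter fun z => (m : ℤ) ∣ z - v, fun z => ?_,
    count_class hm hp hmp ?_⟩
  · rw [mem_filter, mem_Ico, Int.lt_add_one_iff, Int.ceil_le, Int.le_floor, abs_le]
    constructor
    · rintro ⟨⟨h1, h2⟩, h3⟩
      exact ⟨⟨by linarith, by linarith⟩, h3⟩
    · rintro ⟨⟨h1, h2⟩, h3⟩
      exact ⟨⟨by linarith, by linarith⟩, h3⟩
  · have h1 := Int.ceil_lt_add_one (x - e)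
    have h2 := Int.lt_floor_add_one (x + e)
    have h3 : (4 * (m * p : ℤ) : ℝ) < ((⌊x + e⌋ + 1 - ⌈x - e⌉ + 1 : ℤ) : ℝ) := by
      push_cast
      linarith
    have h4 : 4 * (m * p : ℤ) < ⌊x + e⌋ + 1 - ⌈x - e⌉ + 1 := by exact_mod_cast h3
    omega

variable {N d : ℕ}

theorem cbox_count (N d m : ℕ) (hm : 1 ≤ m) (p : ℕ) (hp : p.Prime) (hpm : m.Coprime p)
    (Fb : Fin (N + 1) → MvPolynomial (Fin (N + 1)) ℤ) (hFb : ∀ i, (Fb i).IsHomogeneous d) :
    ∃ c : ℝ, 0 < c ∧ ∀ (A : Fin (N + 1) → MvPolynomial (Fin (N + 1)) ℝ) (ε : ℝ)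
      (F₀ : Fin (N + 1) → MvPolynomial (Fin (N + 1)) ℤ), (∀ i, (A i).IsHomogeneous d) → 0 < ε →
      (∀ i, (F₀ i).IsHomogeneous d) → ∃ B₀ : ℕ, ∀ B : ℕ, B₀ ≤ B →
        (cbox N d m A ε F₀ B).Finite ∧ c * ((cbox N d m A ε F₀ B).ncard : ℝ) ≤
          (({F ∈ cbox N d m A ε F₀ B | ∀ i s, (p : ℤ) ∣ coeff s (F i) - coeff s (Fb i)}).ncard : ℝ)
    := by
  classical
  refine ⟨(1 / (2 * (p : ℝ))) ^ Fintype.card (HIdx N d), by
    have := hp.pos
    positivity, ?_⟩
  intro A ε F₀ hA hε hF₀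
  obtain ⟨B₀, hB₀⟩ := exists_nat_ge ((4 * ((m : ℝ) * p) + 2) / (2 * ε))
  refine ⟨B₀, fun B hB => ?_⟩
  have hBR : 4 * ((m : ℝ) * p) + 2 ≤ 2 * (ε * B) := by
    have h1 : (4 * ((m : ℝ) * p) + 2) / (2 * ε) ≤ B := hB₀.trans (by exact_mod_cast hB)
    rw [div_le_iff₀ (by positivity)] at h1
    linarith
  choose S hS hScard using fun k : HIdx N d => count_one (m := m) (p := p) hm hp.one_le hpm
    (x := B * coeff (k.2 : Fin (N + 1) →₀ ℕ) (A k.1)) (e := ε * B)
    (coeff (k.2 : Fin (N + 1) →₀ ℕ) (F₀ k.1)) (coeff (k.2 : Fin (N + 1) →₀ ℕ) (Fb k.1)) hBR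
  have hcb : cbox N d m A ε F₀ B = (fun c : HIdx N d → ℤ => hP c) ''
      ((Fintype.piFinset S : Finset (HIdx N d → ℤ)) : Set (HIdx N d → ℤ)) := by
    ext F
    constructor
    · intro h
      refine ⟨fun k => coeff (k.2 : Fin (N + 1) →₀ ℕ) (F k.1), ?_, hP_coeff F fun i => (h i).1⟩
      rw [Finset.mem_coe, Fintype.mem_piFinset]
      intro k
      rw [hS]
      exact (h k.1).2 _
    · rintro ⟨c, hc, rfl⟩ i
      rw [Finset.mem_coe, Fintype.mem_piFinset] at hc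
      refine ⟨hP_hom c i, fun s => ?_⟩
      by_cases hs : s.degree = d
      · have h1 := coeff_hP c i ⟨s, hs⟩
        dsimp only at h1 ⊢
        rw [h1]
        exact (hS (i, ⟨s, hs⟩) _).1 (hc _)
      · dsimp only
        rw [coeff_hP_of_ne c i hs, degree_of_hom (hA i) hs, degree_of_hom (hF₀ i) hs]
        simp only [Int.cast_zero, mul_zero, sub_zero, abs_zero, dvd_zero, and_true]
        positivity
  have hgood : {F ∈ cbox N d m A ε F₀ B | ∀ i s, (p : ℤ) ∣ coeff s (F i) - coeff s (Fb i)} =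
      (fun c : HIdx N d → ℤ => hP c) ''
      ((Fintype.piFinset (fun k => (S k).filter fun z =>
        (p : ℤ) ∣ z - coeff (k.2 : Fin (N + 1) →₀ ℕ) (Fb k.1)) : Finset (HIdx N d → ℤ)) :
          Set (HIdx N d → ℤ)) := by
    ext F
    constructor
    · rintro ⟨h, hd⟩
      rw [hcb] at h
      obtain ⟨c, hc, rfl⟩ := h
      refine ⟨c, ?_, rfl⟩
      rw [Finset.mem_coe, Fintype.mem_piFinset] at hc ⊢
      intro k
      rw [mem_filter]
      refine ⟨hc k, ?_⟩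
      have h1 := hd k.1 (k.2 : Fin (N + 1) →₀ ℕ)
      dsimp only at h1
      rwa [coeff_hP] at h1
    · rintro ⟨c, hc, rfl⟩
      rw [Finset.mem_coe, Fintype.mem_piFinset] at hc
      refine ⟨?_, fun i s => ?_⟩
      · rw [hcb]
        refine ⟨c, ?_, rfl⟩
        rw [Finset.mem_coe, Fintype.mem_piFinset]
        exact fun k => (mem_filter.1 (hc k)).1
      · by_cases hs : s.degree = d
        · have h1 := coeff_hP c i ⟨s, hs⟩
          dsimp only at h1 ⊢
          rw [h1]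
          exact (mem_filter.1 (hc (i, ⟨s, hs⟩))).2
        · dsimp only
          rw [coeff_hP_of_ne c i hs, degree_of_hom (hFb i) hs, sub_zero]
          exact dvd_zero _
  rw [hgood, hcb]
  refine ⟨(Finset.finite_toSet _).image _, ?_⟩
  rw [Set.ncard_image_of_injective _ hP_injective, Set.ncard_image_of_injective _ hP_injective,
    Set.ncard_coe_finset, Set.ncard_coe_finset, Fintype.card_piFinset, Fintype.card_piFinset]
  push_cast
  rw [← Finset.card_univ, ← Finset.prod_const, ← Finset.prod_mul_distrib]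
  exact Finset.prod_le_prod (fun k _ => by positivity) fun k _ => hScard k

end

end Pool.Agent.Helper26.FD
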