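import Mathlib
import Pool.Agent.Helper26.FD.Defs

/-!
# FD: the symmetric power of `x ↦ 1 - c / x ^ d`, the forms
-/

set_option autoImplicit false

namespace Pool.Agent.Helper26.FD

open Polynomial

noncomputable section

section bf

variable {R : Type*} [CommRing R] {N : ℕ}

/-- the binary form `∑ gⱼ (c v)ʲ (v - u)ᴺ⁻ʲ` -/
def bf (c : R) (g : Fin (N + 1) → R) (u v : R) : R :=
  ∑ j : Fin (N + 1), g j * (c * v) ^ (j : ℕ) * (v - u) ^ (N - (j : ℕ))

theorem map_bf {S : Type*} [CommRing S] (φ : R →+* S) (c : R) (g : Fin (N + 1) → R) (u v : R) :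
    φ (bf c g u v) = bf (φ c) (fun j => φ (g j)) (φ u) (φ v) := by
  simp only [bf, map_sum, map_mul, map_pow, map_sub]

theorem bf_add (c : R) (g h : Fin (N + 1) → R) (u v t : R) :
    bf c (fun j => g j + t * h j) u v = bf c g u v + t * bf c h u v := by
  simp only [bf, Finset.mul_sum, ← Finset.sum_add_distrib]
  exact Finset.sum_congr rfl fun j _ => by ring

theorem bf_smul (c : R) (g : Fin (N + 1) → R) (u v t : R) :
    bf c (fun j => t * g j) u v = t * bf c g u v := by
  simp only [bf, Finset.mul_sum]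
  exact Finset.sum_congr rfl fun j _ => by ring

theorem bf_one_zero (c : R) (g : Fin (N + 1) → R) : bf c g 1 0 = g 0 * (-1) ^ N := by
  rw [bf, Fin.sum_univ_succ]
  simp

theorem bf_one_one (c : R) (g : Fin (N + 1) → R) : bf c g 1 1 = g (Fin.last N) * c ^ N := by
  rw [bf, Fin.sum_univ_castSucc]
  have h : ∀ i : Fin N, g i.castSucc * (c * 1) ^ ((i.castSucc : Fin (N + 1)) : ℕ) *
      (1 - 1 : R) ^ (N - ((i.castSucc : Fin (N + 1)) : ℕ)) = 0 := by
    intro i
    rw [sub_self, zero_pow, mul_zero]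
    have := i.2
    simp only [Fin.val_castSucc]
    omega
  rw [Finset.sum_eq_zero fun i _ => h i]
  simp

theorem natDegree_bf_le (c : R) (g : Fin (N + 1) → R) (z : R) :
    (bf (C c) (fun j => C (g j)) (C z * X) (1 : R[X])).natDegree ≤ N := by
  refine natDegree_sum_le_of_forall_le _ _ fun j _ => ?_
  have h1 : (C (g j) * (C c * 1) ^ (j : ℕ) : R[X]) = C (g j * c ^ (j : ℕ)) := by
    rw [mul_one, ← C_pow, ← C_mul]
  rw [h1]
  refine (natDegree_C_mul_le _ _).trans ((natDegree_pow_le).trans ?_)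
  have h2 : (1 - C z * X : R[X]).natDegree ≤ 1 := by
    refine (natDegree_sub_le _ _).trans ?_
    rw [natDegree_one]
    exact max_le (Nat.zero_le _) ((natDegree_C_mul_le _ _).trans natDegree_X_le)
  calc (N - (j : ℕ)) * (1 - C z * X : R[X]).natDegree ≤ (N - (j : ℕ)) * 1 :=
        Nat.mul_le_mul_left _ h2
    _ ≤ N := by omega

theorem coeff_bf (c : R) (g : Fin (N + 1) → R) (z : R) :
    (bf (C c) (fun j => C (g j)) (C z * X) (1 : R[X])).coeff N = g 0 * (-z) ^ N := by
  have h2 : (1 - C z * X : R[X]).natDegree ≤ 1 := by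
    refine (natDegree_sub_le _ _).trans ?_
    rw [natDegree_one]
    exact max_le (Nat.zero_le _) ((natDegree_C_mul_le _ _).trans natDegree_X_le)
  rw [bf, finsetSum_coeff, Fin.sum_univ_succ]
  have h1 : ∀ i : Fin N, ((C (g i.succ) * (C c * 1) ^ ((i.succ : Fin (N + 1)) : ℕ) *
      (1 - C z * X) ^ (N - ((i.succ : Fin (N + 1)) : ℕ)) : R[X])).coeff N = 0 := by
    intro i
    rw [mul_one, ← C_pow, ← C_mul, coeff_C_mul]
    rw [coeff_eq_zero_of_natDegree_lt, mul_zero]
    refine (natDegree_pow_le).trans_lt ?_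
    have h3 : (N - ((i.succ : Fin (N + 1)) : ℕ)) * (1 - C z * X : R[X]).natDegree ≤
        (N - ((i.succ : Fin (N + 1)) : ℕ)) * 1 := Nat.mul_le_mul_left _ h2
    have := i.2
    simp only [Fin.val_succ] at h3 ⊢
    omega
  rw [Finset.sum_eq_zero fun i _ => h1 i, add_zero]
  simp only [Fin.val_zero, pow_zero, mul_one, Nat.sub_zero]
  rw [coeff_C_mul]
  congr 1
  have h4 := coeff_pow_of_natDegree_le (m := N) h2
  rw [mul_one] at h4
  rw [h4]
  congr 1
  simp [coeff_one]

end bf

section forms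

variable {p : ℕ} [Fact p.Prime] (N d : ℕ) (c : ZMod p)

/-- the norm of the generic form -/
def Nm : (MvPolynomial (Fin (N + 1)) (ZMod p))[X] :=
  ∏ z ∈ nthRootsFinset d (1 : ZMod p), bf (C (MvPolynomial.C c))
    (fun j : Fin (N + 1) => C (MvPolynomial.X j)) (C (MvPolynomial.C z) * X) 1

/-- the forms of degree `d` which define the symmetric power modulo `p` -/
def Fb (i : Fin (N + 1)) : MvPolynomial (Fin (N + 1)) (ZMod p) :=
  (Nm N d c).coeff (d * i)

variable {N d c}

theorem Nm_comp {w : ZMod p} (hd : 0 < d) (hw : w ^ d = 1) (hw0 : w ≠ 0) :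
    (Nm N d c).comp (C (MvPolynomial.C w) * X) = Nm N d c := by
  have h1 : ∀ z : ZMod p, (bf (C (MvPolynomial.C c))
      (fun j : Fin (N + 1) => C (MvPolynomial.X j)) (C (MvPolynomial.C z) * X)
      (1 : (MvPolynomial (Fin (N + 1)) (ZMod p))[X])).comp (C (MvPolynomial.C w) * X) =
      bf (C (MvPolynomial.C c)) (fun j : Fin (N + 1) => C (MvPolynomial.X j))
        (C (MvPolynomial.C (z * w)) * X) 1 := by
    intro z
    have h := map_bf (compRingHom (C (MvPolynomial.C w) * X :
      (MvPolynomial (Fin (N + 1)) (ZMod p))[X])) (C (MvPolynomial.C c))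
      (fun j : Fin (N + 1) => C (MvPolynomial.X j)) (C (MvPolynomial.C z) * X) 1
    simp only [coe_compRingHom_apply, C_comp, mul_comp, X_comp, one_comp] at h
    rw [h, MvPolynomial.C_mul, C_mul]
    congr 1
    ring
  rw [Nm, prod_comp]
  simp only [h1]
  refine Finset.prod_bij (fun z _ => z * w) ?_ ?_ ?_ ?_
  · intro z hz
    rw [mem_nthRootsFinset hd] at hz ⊢
    rw [mul_pow, hz, hw, mul_one]
  · intro z _ z' _ h
    exact mul_right_cancel₀ hw0 h
  · intro z hz
    refine ⟨z * w⁻¹, ?_, by field_simp⟩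
    rw [mem_nthRootsFinset hd] at hz ⊢
    rw [mul_pow, hz, inv_pow, hw, inv_one, mul_one]
  · intro z _
    rfl

theorem Nm_coeff {w : ZMod p} (hw : IsPrimitiveRoot w d) (hd : 0 < d) {n : ℕ} (hn : ¬ d ∣ n) :
    (Nm N d c).coeff n = 0 := by
  have h1 := congrArg (fun q => q.coeff n) (Nm_comp (N := N) (c := c) hd hw.pow_eq_one
    (hw.ne_zero hd.ne'))
  simp only [comp_C_mul_X_coeff] at h1
  have h2 : (Nm N d c).coeff n * (MvPolynomial.C (w ^ n) - 1) = 0 := by
    rw [MvPolynomial.C_pow, mul_sub, mul_one, h1, sub_self]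
  rcases mul_eq_zero.1 h2 with h | h
  · exact h
  · exfalso
    apply hn
    rw [← hw.pow_eq_one_iff_dvd]
    rw [sub_eq_zero, ← MvPolynomial.C_1] at h
    exact MvPolynomial.C_injective _ _ h

theorem natDegree_Nm_le {w : ZMod p} (hw : IsPrimitiveRoot w d) :
    (Nm N d c).natDegree ≤ d * N := by
  rw [Nm]
  refine (natDegree_prod_le _ _).trans ?_
  refine (Finset.sum_le_card_nsmul _ _ N fun z _ => natDegree_bf_le _ _ _).trans ?_
  rw [hw.card_nthRootsFinset, smul_eq_mul]

theorem Nm_eq {w : ZMod p} (hw : IsPrimitiveRoot w d) (hd : 0 < d) :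
    Nm N d c = ∑ i : Fin (N + 1), C (Fb N d c i) * X ^ (d * (i : ℕ)) := by
  ext1 n
  rw [finsetSum_coeff]
  simp only [coeff_C_mul, coeff_X_pow]
  by_cases hdn : d ∣ n
  · obtain ⟨k, rfl⟩ := hdn
    by_cases hk : k < N + 1
    · rw [Finset.sum_eq_single (⟨k, hk⟩ : Fin (N + 1))]
      · simp [Fb]
      · intro b _ hb
        rw [if_neg, mul_zero]
        intro h
        apply hb
        ext
        exact (Nat.eq_of_mul_eq_mul_left hd h).symm
      · intro h
        exact absurd (Finset.mem_univ _) h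
    · rw [coeff_eq_zero_of_natDegree_lt, Finset.sum_eq_zero]
      · intro i _
        rw [if_neg, mul_zero]
        intro h
        have := Nat.eq_of_mul_eq_mul_left hd h
        have := i.2
        omega
      · refine (natDegree_Nm_le hw).trans_lt ?_
        exact Nat.mul_lt_mul_of_pos_left (by omega) hd
  · rw [Nm_coeff hw hd hdn, Finset.sum_eq_zero]
    intro i _
    rw [if_neg, mul_zero]
    rintro rfl
    exact hdn (dvd_mul_right _ _)

theorem Fb_last {w : ZMod p} (hw : IsPrimitiveRoot w d) :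
    Fb N d c (Fin.last N) = ∏ z ∈ nthRootsFinset d (1 : ZMod p),
      (MvPolynomial.X 0 * (-MvPolynomial.C z) ^ N) := by
  rw [Fb, Nm, Fin.val_last]
  have h := coeff_prod_of_natDegree_le (s := nthRootsFinset d (1 : ZMod p))
    (fun z => bf (C (MvPolynomial.C c))
      (fun j : Fin (N + 1) => C (MvPolynomial.X j)) (C (MvPolynomial.C z) * X)
      (1 : (MvPolynomial (Fin (N + 1)) (ZMod p))[X])) N (fun z _ => natDegree_bf_le _ _ _)
  rw [hw.card_nthRootsFinset] at h
  rw [h]
  refine Finset.prod_congr rfl fun z _ => ?_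
  exact coeff_bf _ (fun j => MvPolynomial.X j) _

/-- all coefficients of a polynomial are homogeneous of degree `n` -/
def CH (n : ℕ) (q : (MvPolynomial (Fin (N + 1)) (ZMod p))[X]) : Prop :=
  ∀ k, (q.coeff k).IsHomogeneous n

theorem CH.mul {m n : ℕ} {q r : (MvPolynomial (Fin (N + 1)) (ZMod p))[X]} (hq : CH m q)
    (hr : CH n r) : CH (m + n) (q * r) := by
  intro k
  rw [coeff_mul]
  exact MvPolynomial.IsHomogeneous.sum _ _ _ fun x _ => (hq x.1).mul (hr x.2)

theorem CH_bf (z : ZMod p) : CH 1 (bf (C (MvPolynomial.C c))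
      (fun j : Fin (N + 1) => C (MvPolynomial.X j)) (C (MvPolynomial.C z) * X)
      (1 : (MvPolynomial (Fin (N + 1)) (ZMod p))[X])) := by
  intro k
  rw [bf, finsetSum_coeff]
  refine MvPolynomial.IsHomogeneous.sum _ _ _ fun j _ => ?_
  have h1 : (C (MvPolynomial.X j) * (C (MvPolynomial.C c) * 1) ^ (j : ℕ) *
      (1 - C (MvPolynomial.C z) * X) ^ (N - (j : ℕ)) :
      (MvPolynomial (Fin (N + 1)) (ZMod p))[X]) = C (MvPolynomial.X j) *
      (((C c * 1) ^ (j : ℕ) * (1 - C z * X) ^ (N - (j : ℕ)) : (ZMod p)[X]).map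
        MvPolynomial.C) := by
    simp only [Polynomial.map_mul, Polynomial.map_pow, Polynomial.map_sub, map_C, map_X,
      Polynomial.map_one]
    ring
  rw [h1, coeff_C_mul, coeff_map]
  exact (MvPolynomial.isHomogeneous_X _ _).mul (MvPolynomial.isHomogeneous_C _ _)

theorem CH_prod (s : Finset (ZMod p)) : CH s.card (∏ z ∈ s, bf (C (MvPolynomial.C c))
    (fun j : Fin (N + 1) => C (MvPolynomial.X j)) (C (MvPolynomial.C z) * X)
      (1 : (MvPolynomial (Fin (N + 1)) (ZMod p))[X])) := by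
  classical
  induction s using Finset.induction_on with
  | empty =>
    intro k
    rw [Finset.prod_empty, Finset.card_empty, coeff_one]
    split_ifs
    · exact MvPolynomial.isHomogeneous_one _ _
    · exact MvPolynomial.isHomogeneous_zero _ _ _
  | insert a s ha ih =>
    rw [Finset.prod_insert ha, Finset.card_insert_of_notMem ha, add_comm]
    exact (CH_bf a).mul ih

theorem Fb_hom {w : ZMod p} (hw : IsPrimitiveRoot w d) (i : Fin (N + 1)) :
    (Fb N d c i).IsHomogeneous d := by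
  have h := CH_prod (N := N) (c := c) (nthRootsFinset d (1 : ZMod p)) (d * i)
  rw [hw.card_nthRootsFinset] at h
  exact h

/-- the basic identity -/
theorem Fb_ident {R : Type*} [CommRing R] (φ : ZMod p →+* R) {w : ZMod p}
    (hw : IsPrimitiveRoot w d) (hd : 0 < d) (x : Fin (N + 1) → R) (a : R) :
    ∏ z ∈ nthRootsFinset d (1 : ZMod p), bf (φ c) x (φ z * a) 1 =
      ∑ i : Fin (N + 1), MvPolynomial.eval₂Hom φ x (Fb N d c i) * (a ^ d) ^ (i : ℕ) := by
  have h := congrArg (eval₂RingHom (MvPolynomial.eval₂Hom φ x) a) (Nm_eq (N := N) (c := c) hw hd)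
  rw [Nm, map_prod, map_sum] at h
  have h1 : ∀ z : ZMod p, eval₂RingHom (MvPolynomial.eval₂Hom φ x) a
      (bf (C (MvPolynomial.C c)) (fun j : Fin (N + 1) => C (MvPolynomial.X j))
        (C (MvPolynomial.C z) * X) (1 : (MvPolynomial (Fin (N + 1)) (ZMod p))[X])) =
      bf (φ c) x (φ z * a) 1 := by
    intro z
    rw [map_bf]
    simp
  simp only [h1] at h
  rw [h]
  refine Finset.sum_congr rfl fun i _ => ?_
  rw [map_mul, map_pow]
  simp [pow_mul]

theorem Fb_last' {R : Type*} [CommRing R] (φ : ZMod p →+* R) {w : ZMod p}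
    (hw : IsPrimitiveRoot w d) (x : Fin (N + 1) → R) :
    MvPolynomial.eval₂Hom φ x (Fb N d c (Fin.last N)) =
      ∏ z ∈ nthRootsFinset d (1 : ZMod p), (x 0 * (-φ z) ^ N) := by
  rw [Fb_last hw, map_prod]
  refine Finset.prod_congr rfl fun z _ => ?_
  simp

end forms

end

end Pool.Agent.Helper26.FD
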