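import Mathlib
import Pool.Agent.Helper26.FD.Sym1

/-!
# FD: the roots of the forms, and the dynamics on the projective line
-/

set_option autoImplicit false

namespace Pool.Agent.Helper26.FD

open Polynomial Function

noncomputable section

variable {p : ℕ} [Fact p.Prime] {N d : ℕ} {c : ZMod p}

section roots

variable {K : Type*} [Field K] (φ : ZMod p →+* K)

/-- the map given by the forms -/
def FK (N d : ℕ) (c : ZMod p) (φ : ZMod p →+* K) (g : Fin (N + 1) → K) : Fin (N + 1) → K :=
  fun i => MvPolynomial.eval₂Hom φ g (Fb N d c i)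

/-- `x` is a root of the form with coefficients `g`; the point at infinity is `none` -/
def Rt (c : K) (g : Fin (N + 1) → K) : Option K → Prop
  | none => g 0 = 0
  | some x => bf c g x 1 = 0

open Classical in
/-- the rational function `1 - c / x ^ d` -/
def ff (d : ℕ) (c : K) : Option K → Option K
  | none => some 1
  | some x => if x = 0 then none else some (1 - c / x ^ d)

variable {φ}

theorem bf_FK_zero (w : ZMod p) (hw : IsPrimitiveRoot w d) (hd : 0 < d) (g : Fin (N + 1) → K) :
    FK N d c φ g 0 = (bf (φ c) g 0 1) ^ d := by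
  have h := Fb_ident (c := c) φ hw hd g 0
  simp only [mul_zero, Finset.prod_const, hw.card_nthRootsFinset, zero_pow hd.ne'] at h
  rw [h, Fin.sum_univ_succ]
  simp [FK]

theorem bf_FK_last (w : ZMod p) (hw : IsPrimitiveRoot w d) (g : Fin (N + 1) → K) :
    FK N d c φ g (Fin.last N) = 0 ↔ (0 < d ∧ g 0 = 0) := by
  rw [FK, Fb_last' φ hw, Finset.prod_eq_zero_iff]
  constructor
  · rintro ⟨z, hz, h⟩
    have hd : 0 < d := by
      rcases Nat.eq_zero_or_pos d with h0 | h0
      · rw [h0, nthRootsFinset_zero] at hz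
        exact absurd hz (Finset.notMem_empty _)
      · exact h0
    refine ⟨hd, ?_⟩
    rcases mul_eq_zero.1 h with h | h
    · exact h
    · exfalso
      have h1 : -φ z = 0 := (pow_eq_zero_iff (n := N) (by
        intro hN
        rw [hN, pow_zero] at h
        exact one_ne_zero h)).1 h
      rw [neg_eq_zero, map_eq_zero] at h1
      rw [mem_nthRootsFinset hd, h1, zero_pow hd.ne'] at hz
      exact zero_ne_one hz
  · rintro ⟨hd, h⟩
    exact ⟨1, one_mem_nthRootsFinset hd, by rw [h, zero_mul]⟩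

theorem bf_FK (w : ZMod p) (hw : IsPrimitiveRoot w d) (hd : 0 < d) (g : Fin (N + 1) → K)
    {x : K} (hx : x ≠ 0) :
    bf (φ c) (FK N d c φ g) (1 - φ c / x ^ d) 1 * (x ^ d) ^ N =
      (φ c) ^ N * ∏ z ∈ nthRootsFinset d (1 : ZMod p), bf (φ c) g (φ z * x) 1 := by
  rw [Fb_ident (c := c) φ hw hd g x, bf, Finset.sum_mul, Finset.mul_sum]
  refine Finset.sum_congr rfl fun j _ => ?_
  have h1 : (1 : K) - (1 - φ c / x ^ d) = φ c / x ^ d := by ring
  have hj : (j : ℕ) + (N - (j : ℕ)) = N := by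
    have := j.2
    omega
  have hxd : x ^ d ≠ 0 := pow_ne_zero _ hx
  rw [h1, mul_one, div_pow]
  have h2 : (x ^ d) ^ N = (x ^ d) ^ (j : ℕ) * (x ^ d) ^ (N - (j : ℕ)) := by
    rw [← pow_add, hj]
  have h3 : (φ c) ^ N = (φ c) ^ (j : ℕ) * (φ c) ^ (N - (j : ℕ)) := by
    rw [← pow_add, hj]
  rw [h2, h3]
  simp only [FK]
  field_simp

theorem Rt_FK [IsAlgClosed K] (w : ZMod p) (hw : IsPrimitiveRoot w d) (hd : 0 < d) (hc : c ≠ 0)
    (g : Fin (N + 1) → K) (y : Option K) :
    Rt (φ c) (FK N d c φ g) y ↔ ∃ x, ff d (φ c) x = y ∧ Rt (φ c) g x := by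
  have hc' : φ c ≠ 0 := (map_ne_zero φ).2 hc
  have key : ∀ x : K, x ≠ 0 → (Rt (φ c) (FK N d c φ g) (some (1 - φ c / x ^ d)) ↔
      ∃ z ∈ nthRootsFinset d (1 : ZMod p), bf (φ c) g (φ z * x) 1 = 0) := by
    intro x hx
    have h := bf_FK (c := c) (φ := φ) w hw hd g hx
    rw [← Finset.prod_eq_zero_iff]
    constructor
    · intro h0
      have h0' : bf (φ c) (FK N d c φ g) (1 - φ c / x ^ d) 1 = 0 := h0
      rw [h0', zero_mul] at h
      exact (mul_eq_zero.1 h.symm).resolve_left (pow_ne_zero _ hc')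
    · intro h0
      rw [h0, mul_zero] at h
      exact (mul_eq_zero.1 h).resolve_right (pow_ne_zero _ (pow_ne_zero _ hx))
  have hz0 : ∀ z ∈ nthRootsFinset d (1 : ZMod p), φ z ≠ 0 ∧ (φ z) ^ d = 1 := by
    intro z hz
    rw [mem_nthRootsFinset hd] at hz
    have h1 : (φ z) ^ d = 1 := by rw [← map_pow, hz, map_one]
    refine ⟨fun h0 => ?_, h1⟩
    rw [h0, zero_pow hd.ne'] at h1
    exact zero_ne_one h1
  constructor
  · intro h
    match y with
    | none =>
      refine ⟨some 0, by simp [ff], ?_⟩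
      have h1 : FK N d c φ g 0 = 0 := h
      rw [bf_FK_zero w hw hd] at h1
      exact (pow_eq_zero_iff hd.ne').1 h1
    | some y =>
      by_cases hy : y = 1
      · subst hy
        refine ⟨none, rfl, ?_⟩
        have h1 : bf (φ c) (FK N d c φ g) 1 1 = 0 := h
        rw [bf_one_one] at h1
        exact ((bf_FK_last w hw g).1 ((mul_eq_zero.1 h1).resolve_right (pow_ne_zero _ hc'))).2
      · have hy' : 1 - y ≠ 0 := fun h => hy (sub_eq_zero.1 h).symm
        obtain ⟨x, hx⟩ := IsAlgClosed.exists_pow_nat_eq (φ c / (1 - y)) hd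
        have hx0 : x ≠ 0 := by
          rintro rfl
          rw [zero_pow hd.ne'] at hx
          exact (div_ne_zero hc' hy') hx.symm
        have hyx : y = 1 - φ c / x ^ d := by
          rw [hx]
          field_simp
          ring
        rw [hyx] at h
        obtain ⟨z, hz, hz1⟩ := (key x hx0).1 h
        obtain ⟨hz2, hz3⟩ := hz0 z hz
        refine ⟨some (φ z * x), ?_, hz1⟩
        rw [ff, if_neg (mul_ne_zero hz2 hx0), mul_pow, hz3, one_mul, hyx]
  · rintro ⟨x, rfl, h⟩
    match x with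
    | none =>
      have h1 : g 0 = 0 := h
      show bf (φ c) (FK N d c φ g) 1 1 = 0
      rw [bf_one_one, (bf_FK_last w hw g).2 ⟨hd, h1⟩, zero_mul]
    | some x =>
      by_cases hx : x = 0
      · subst hx
        have h1 : bf (φ c) g 0 1 = 0 := h
        have h2 : ff d (φ c) (some 0) = none := by simp [ff]
        rw [h2]
        show FK N d c φ g 0 = 0
        rw [bf_FK_zero w hw hd, h1, zero_pow hd.ne']
      · rw [ff, if_neg hx, key x hx]
        refine ⟨1, one_mem_nthRootsFinset hd, ?_⟩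
        rw [map_one, one_mul]
        exact h

theorem Rt_FK_iterate [IsAlgClosed K] (w : ZMod p) (hw : IsPrimitiveRoot w d) (hd : 0 < d)
    (hc : c ≠ 0) (g : Fin (N + 1) → K) (n : ℕ) (y : Option K) :
    Rt (φ c) ((FK N d c φ)^[n] g) y ↔ ∃ x, (ff d (φ c))^[n] x = y ∧ Rt (φ c) g x := by
  induction n generalizing y with
  | zero => simp
  | succ n ih =>
    rw [iterate_succ_apply', Rt_FK w hw hd hc]
    simp only [ih, iterate_succ_apply']
    constructor
    · rintro ⟨x, hx, x', hx', h⟩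
      exact ⟨x', by rw [hx', hx], h⟩
    · rintro ⟨x, hx, h⟩
      exact ⟨_, hx, x, rfl, h⟩

/-- the polynomial of the form -/
theorem bf_poly_ne_zero {c : K} (hc : c ≠ 0) {g : Fin (N + 1) → K} (hg : g ≠ 0) {z : K}
    (hz : z ≠ 0) : bf (C c) (fun j => C (g j)) (C z * X) (1 : K[X]) ≠ 0 := by
  intro h
  apply hg
  have h1 := congrArg (compRingHom (C z⁻¹ * (1 - X) : K[X])) h
  rw [map_bf, map_zero] at h1
  simp only [coe_compRingHom_apply, C_comp, mul_comp, X_comp, one_comp] at h1
  have h2 : (C z * (C z⁻¹ * (1 - X)) : K[X]) = 1 - X := by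
    rw [← mul_assoc, ← C_mul, mul_inv_cancel₀ hz, C_1, one_mul]
  rw [h2, bf] at h1
  have h3 : (1 : K[X]) - (1 - X) = X := by ring
  rw [h3] at h1
  funext j
  have h4 := congrArg (fun q => q.coeff (N - (j : ℕ))) h1
  simp only [mul_one, finsetSum_coeff, coeff_zero] at h4
  have h5 : ∀ i : Fin (N + 1), (C (g i) * C c ^ (i : ℕ) * X ^ (N - (i : ℕ)) : K[X]).coeff
      (N - (j : ℕ)) = if i = j then g i * c ^ (i : ℕ) else 0 := by
    intro i
    rw [← C_pow, ← C_mul, coeff_C_mul, coeff_X_pow]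
    have hi := i.2
    have hj := j.2
    by_cases hij : i = j
    · subst hij
      simp
    · rw [if_neg, if_neg hij, mul_zero]
      intro h
      apply hij
      ext
      omega
  simp only [h5, Finset.sum_ite_eq', Finset.mem_univ, if_true] at h4
  exact (mul_eq_zero.1 h4).resolve_right (pow_ne_zero _ hc)

theorem Rt_finite {c : K} (hc : c ≠ 0) {g : Fin (N + 1) → K} (hg : g ≠ 0) :
    {x | Rt c g x}.Finite := by
  have h := bf_poly_ne_zero hc hg (one_ne_zero (α := K))
  have hfin : ({x : K | bf c g x 1 = 0}).Finite := by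
    refine (bf (C c) (fun j => C (g j)) (C 1 * X) (1 : K[X])).rootSet_finite K |>.subset ?_
    intro x hx
    rw [mem_rootSet]
    refine ⟨h, ?_⟩
    have h1 := map_bf (evalRingHom x) (C c) (fun j => C (g j)) (C 1 * X) (1 : K[X])
    simp only [coe_evalRingHom, eval_C, eval_mul, eval_X, eval_one, one_mul] at h1
    rw [coe_aeval_eq_eval]
    simp only [h1]
    exact hx
  refine ((hfin.image some).insert none).subset ?_
  intro x hx
  match x with
  | none => exact Set.mem_insert _ _
  | some x => exact Set.mem_insert_of_mem _ ⟨x, hx, rfl⟩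

theorem FK_ne_zero {w : ZMod p} (hw : IsPrimitiveRoot w d) (hd : 0 < d) (hc : c ≠ 0)
    {g : Fin (N + 1) → K} (hg : g ≠ 0) : FK N d c φ g ≠ 0 := by
  intro h
  have hc' : φ c ≠ 0 := (map_ne_zero φ).2 hc
  have h1 := Fb_ident (c := c) ((C : K →+* K[X]).comp φ) hw hd (fun j => C (g j)) X
  have h2 : ∀ i, MvPolynomial.eval₂Hom ((C : K →+* K[X]).comp φ) (fun j => C (g j))
      (Fb N d c i) = 0 := by
    intro i
    have h3 : MvPolynomial.eval₂Hom ((C : K →+* K[X]).comp φ) (fun j => C (g j)) (Fb N d c i) =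
        C (FK N d c φ g i) := by
      rw [FK]
      exact (MvPolynomial.map_eval₂Hom φ g C (Fb N d c i)).symm
    rw [h3, h, Pi.zero_apply, C_0]
  simp only [h2, zero_mul, Finset.sum_const_zero] at h1
  obtain ⟨z, hz, hz1⟩ := Finset.prod_eq_zero_iff.1 h1
  rw [mem_nthRootsFinset hd] at hz
  have hz0 : φ z ≠ 0 := by
    intro h0
    rw [map_eq_zero] at h0
    rw [h0, zero_pow hd.ne'] at hz
    exact zero_ne_one hz
  exact bf_poly_ne_zero hc' hg hz0 hz1

end roots

end

end Pool.Agent.Helper26.FD
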