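import Mathlib
import Pool.Agent.Helper26.FD.Sym2

/-!
# FD: no periodic critical points
-/

set_option autoImplicit false

namespace Pool.Agent.Helper26.FD

open Polynomial Function

noncomputable section

variable {p : ℕ} [Fact p.Prime] {N d : ℕ}

section line

variable {K : Type*} [Field K]

theorem ff_orbit_none {d : ℕ} {c : K} (hd : 0 < d) (h1 : (1 - c) ^ d = 1) (n : ℕ) :
    (ff d c)^[n + 1] none = some 1 ∨ (ff d c)^[n + 1] none = some (1 - c) := by
  induction n with
  | zero => left; rfl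
  | succ n ih =>
    rw [iterate_succ_apply']
    right
    rcases ih with h | h
    · rw [h, ff, if_neg one_ne_zero, one_pow, div_one]
    · rw [h, ff, if_neg, h1, div_one]
      intro h0
      rw [h0, zero_pow hd.ne'] at h1
      exact zero_ne_one h1

theorem ff_none_not_periodic {d : ℕ} {c : K} (hd : 0 < d) (h1 : (1 - c) ^ d = 1) {n : ℕ}
    (hn : 0 < n) : (ff d c)^[n] none ≠ none := by
  obtain ⟨m, rfl⟩ := Nat.exists_eq_add_of_lt hn
  rw [zero_add]
  rcases ff_orbit_none hd h1 m with h | h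
  · rw [h]; exact Option.some_ne_none _
  · rw [h]; exact Option.some_ne_none _

theorem ff_zero_not_periodic {d : ℕ} {c : K} (hd : 0 < d) (h1 : (1 - c) ^ d = 1) {n : ℕ}
    (hn : 0 < n) : (ff d c)^[n] (some 0) ≠ some 0 := by
  obtain ⟨m, rfl⟩ := Nat.exists_eq_add_of_lt hn
  rw [zero_add, iterate_succ_apply]
  have h2 : ff d c (some 0) = none := by simp [ff]
  rw [h2]
  rcases Nat.eq_zero_or_pos m with rfl | hm
  · exact (Option.some_ne_none _).symm
  · obtain ⟨k, rfl⟩ := Nat.exists_eq_add_of_lt hm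
    rw [zero_add]
    rcases ff_orbit_none hd h1 k with h | h
    · rw [h]
      intro h0
      exact one_ne_zero (Option.some_injective _ h0)
    · rw [h]
      intro h0
      rw [Option.some_injective _ h0, zero_pow hd.ne'] at h1
      exact zero_ne_one h1

/-- a finite set mapped onto itself by an iterate -/
theorem finite_dyn {α : Type*} {f : α → α} {S : Set α} (hS : S.Finite) {m : ℕ} (hm : 1 ≤ m)
    (h : ∀ y, y ∈ S ↔ ∃ x, f^[m] x = y ∧ x ∈ S) :
    Set.InjOn f S ∧ ∀ x ∈ S, ∃ n, 0 < n ∧ f^[n] x = x := by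
  have hmaps : Set.MapsTo f^[m] S S := fun x hx => (h _).2 ⟨x, rfl, hx⟩
  have hsurj : Set.SurjOn f^[m] S S := fun y hy => by
    obtain ⟨x, hx, hxS⟩ := (h y).1 hy
    exact ⟨x, hxS, hx⟩
  have hinj : Set.InjOn f^[m] S := by
    have h1 := Finset.injOn_of_surjOn_of_card_le (s := hS.toFinset) (t := hS.toFinset) f^[m]
      (by simpa using hmaps) (by simpa using hsurj) le_rfl
    simpa using h1
  refine ⟨fun x hx y hy hxy => hinj hx hy ?_, fun x hx => ?_⟩
  · obtain ⟨k, rfl⟩ := Nat.exists_eq_add_of_le hm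
    rw [add_comm, iterate_add_apply, iterate_add_apply, iterate_one, hxy]
  · have := hS.to_subtype
    let F : S → S := hmaps.restrict
    have hF : Injective F := (Set.MapsTo.restrict_inj hmaps).2 hinj
    obtain ⟨n, hn, hper⟩ := hF.mem_periodicPts ⟨x, hx⟩
    refine ⟨m * n, Nat.mul_pos hm hn, ?_⟩
    have h1 : ∀ k, ((F^[k] ⟨x, hx⟩ : S) : α) = (f^[m])^[k] x := by
      intro k
      induction k with
      | zero => rfl
      | succ k ih => rw [iterate_succ_apply', iterate_succ_apply', ← ih]; rfl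
    rw [iterate_mul, ← h1, hper]

end line

section crit

variable {K : Type*} [Field K] {c : ZMod p} {φ : ZMod p →+* K}

theorem no_crit [IsAlgClosed K] {w : ZMod p} (hw : IsPrimitiveRoot w d) (hd : 0 < d)
    (hc : c ≠ 0) (h1 : (1 - c) ^ d = 1) {g : Fin (N + 1) → K} (hg : g ≠ 0) {m : ℕ} (hm : 1 ≤ m)
    (hper : (FK N d c φ)^[m] g = g) :
    g 0 ≠ 0 ∧ ∀ z ∈ nthRootsFinset d (1 : ZMod p), z ≠ 1 → ∀ x : K, bf (φ c) g x 1 = 0 →
      bf (φ c) g (φ z * x) 1 ≠ 0 := by
  have hc' : φ c ≠ 0 := (map_ne_zero φ).2 hc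
  have h1' : (1 - φ c) ^ d = 1 := by rw [← map_one φ, ← map_sub, ← map_pow, h1]
  have hdyn := finite_dyn (f := ff d (φ c)) (S := {x | Rt (φ c) g x}) (Rt_finite hc' hg) hm
    (fun y => by
      have h := Rt_FK_iterate (φ := φ) w hw hd hc g m y
      rw [hper] at h
      exact h)
  obtain ⟨hinj, hrec⟩ := hdyn
  refine ⟨fun h0 => ?_, fun z hz hz1 x hx hzx => ?_⟩
  · obtain ⟨n, hn, hn'⟩ := hrec none h0
    exact ff_none_not_periodic hd h1' hn hn'
  · by_cases hx0 : x = 0
    · subst hx0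
      obtain ⟨n, hn, hn'⟩ := hrec (some 0) hx
      exact ff_zero_not_periodic hd h1' hn hn'
    · rw [mem_nthRootsFinset hd] at hz
      have hz2 : (φ z) ^ d = 1 := by rw [← map_pow, hz, map_one]
      have hz0 : φ z ≠ 0 := by
        intro h0
        rw [h0, zero_pow hd.ne'] at hz2
        exact zero_ne_one hz2
      have h2 : ff d (φ c) (some (φ z * x)) = ff d (φ c) (some x) := by
        rw [ff, ff, if_neg (mul_ne_zero hz0 hx0), if_neg hx0, mul_pow, hz2, one_mul]
      have h3 := Option.some_injective _ (hinj (x₁ := some (φ z * x)) (x₂ := some x) hzx hx h2)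
      have h4 : φ z = 1 := by
        have h5 : (φ z - 1) * x = 0 := by linear_combination h3
        rcases mul_eq_zero.1 h5 with h6 | h6
        · exact sub_eq_zero.1 h6
        · exact absurd h6 hx0
      exact hz1 (φ.injective (h4.trans (map_one φ).symm))

/-- expansion to first order -/
theorem eval₂_taylor {R A : Type*} [CommRing R] [CommRing A] {n : ℕ} (ψ : R →+* A)
    (P : MvPolynomial (Fin n) R) (x e : Fin n → A) (t : A) :
    ∃ r : A, MvPolynomial.eval₂Hom ψ (fun j => x j + t * e j) P =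
      MvPolynomial.eval₂Hom ψ x P +
        t * ∑ j, e j * MvPolynomial.eval₂Hom ψ x (MvPolynomial.pderiv j P) + t ^ 2 * r := by
  induction P using MvPolynomial.induction_on with
  | C a => exact ⟨0, by simp⟩
  | add P Q hP hQ =>
    obtain ⟨r, hr⟩ := hP
    obtain ⟨s, hs⟩ := hQ
    refine ⟨r + s, ?_⟩
    simp only [map_add, hr, hs, mul_add, Finset.sum_add_distrib]
    ring
  | mul_X P i hP =>
    obtain ⟨r, hr⟩ := hP
    refine ⟨r * (x i + t * e i) + e i *
      ∑ j, e j * MvPolynomial.eval₂Hom ψ x (MvPolynomial.pderiv j P), ?_⟩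
    have h1 : ∀ j, e j * MvPolynomial.eval₂Hom ψ x (MvPolynomial.pderiv j (P * MvPolynomial.X i)) =
        (e j * MvPolynomial.eval₂Hom ψ x (MvPolynomial.pderiv j P)) * x i +
          (if j = i then e j * MvPolynomial.eval₂Hom ψ x P else 0) := by
      intro j
      rw [MvPolynomial.pderiv_mul, map_add, map_mul, map_mul, MvPolynomial.pderiv_X]
      by_cases hij : j = i
      · subst hij
        simp
        ring
      · rw [if_neg hij, Pi.single_eq_of_ne (Ne.symm hij)]
        simp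
        ring
    rw [map_mul, hr, MvPolynomial.eval₂Hom_X']
    simp only [h1, Finset.sum_add_distrib, ← Finset.sum_mul, Finset.sum_ite_eq', Finset.mem_univ,
      if_true, map_mul, MvPolynomial.eval₂Hom_X']
    ring

theorem jac_ne_zero [IsAlgClosed K] {w : ZMod p} (hw : IsPrimitiveRoot w d) (hd : 0 < d)
    (hdp : (d : K) ≠ 0)
    (hc : c ≠ 0) (h1 : (1 - c) ^ d = 1) {g : Fin (N + 1) → K} (hg : g ≠ 0) {m : ℕ} (hm : 1 ≤ m)
    (hper : (FK N d c φ)^[m] g = g) :
    (Matrix.of fun i j => MvPolynomial.eval₂Hom φ g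
      (MvPolynomial.pderiv j (Fb N d c i))).det ≠ 0 := by
  intro hdet
  obtain ⟨hg0, hcop⟩ := no_crit hw hd hc h1 hg hm hper
  have hc' : φ c ≠ 0 := (map_ne_zero φ).2 hc
  obtain ⟨e, he0, he⟩ := Matrix.exists_mulVec_eq_zero_iff.2 hdet
  have he' : ∀ i, ∑ j, e j * MvPolynomial.eval₂Hom φ g (MvPolynomial.pderiv j (Fb N d c i)) = 0 := by
    intro i
    have h2 := congrFun he i
    simp only [Matrix.mulVec, dotProduct, Matrix.of_apply, Pi.zero_apply] at h2
    rw [← h2]
    exact Finset.sum_congr rfl fun j _ => mul_comm _ _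
  -- the forms
  let G : (Fin (N + 1) → K) → K → K[X] := fun g z => bf (C (φ c)) (fun j => C (g j)) (C z * X) 1
  let ψ : ZMod p →+* K[X][X] := (C : K[X] →+* K[X][X]).comp ((C : K →+* K[X]).comp φ)
  have hid := Fb_ident (c := c) ψ hw hd (fun j => C (C (g j)) + X * C (C (e j))) (C X)
  have hR : ∀ i, (MvPolynomial.eval₂Hom ψ (fun j => C (C (g j)) + X * C (C (e j)))
      (Fb N d c i)).coeff 1 = 0 := by
    intro i
    obtain ⟨r, hr⟩ := eval₂_taylor ψ (Fb N d c i) (fun j => C (C (g j))) (fun j => C (C (e j)))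
      (X : K[X][X])
    rw [hr]
    have h3 : ∀ P : MvPolynomial (Fin (N + 1)) (ZMod p),
        MvPolynomial.eval₂Hom ψ (fun j => C (C (g j))) P = C (C (MvPolynomial.eval₂Hom φ g P)) := by
      intro P
      have h4 := MvPolynomial.map_eval₂Hom φ g ((C : K[X] →+* K[X][X]).comp (C : K →+* K[X])) P
      exact h4.symm
    have h5 : ∑ j, C (C (e j)) * MvPolynomial.eval₂Hom ψ (fun j => C (C (g j)))
        (MvPolynomial.pderiv j (Fb N d c i)) = (0 : K[X][X]) := by
      have h6 : (C (C (∑ j, e j * MvPolynomial.eval₂Hom φ g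
          (MvPolynomial.pderiv j (Fb N d c i)))) : K[X][X]) = 0 := by
        rw [he' i, C_0, C_0]
      rw [← h6, map_sum, map_sum]
      refine Finset.sum_congr rfl fun j _ => ?_
      rw [h3, C_mul, C_mul]
    rw [h5, h3, mul_zero, add_zero, coeff_add, coeff_X_pow_mul', if_neg (by norm_num), add_zero,
      coeff_C]
    simp
  have hRHS : (∑ i : Fin (N + 1), MvPolynomial.eval₂Hom ψ
      (fun j => C (C (g j)) + X * C (C (e j))) (Fb N d c i) * ((C X : K[X][X]) ^ d) ^ (i : ℕ)).coeff 1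
      = 0 := by
    rw [finsetSum_coeff]
    refine Finset.sum_eq_zero fun i _ => ?_
    rw [← C_pow, ← C_pow, coeff_mul_C, hR, zero_mul]
  rw [← hid] at hRHS
  have hfac : ∀ z : ZMod p, bf (ψ c) (fun j => C (C (g j)) + X * C (C (e j))) (ψ z * C X)
      (1 : K[X][X]) = C (G g (φ z)) + X * C (G e (φ z)) := by
    intro z
    rw [bf_add]
    have h7 : ∀ h : Fin (N + 1) → K, bf (ψ c) (fun j => C (C (h j))) (ψ z * C X) (1 : K[X][X]) =
        C (G h (φ z)) := by
      intro h
      have h8 := map_bf (C : K[X] →+* K[X][X]) (C (φ c)) (fun j => C (h j)) (C (φ z) * X) 1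
      rw [C_mul, C_1] at h8
      exact h8.symm
    rw [h7, h7]
  simp only [hfac] at hRHS
  have h1mem : (1 : ZMod p) ∈ nthRootsFinset d (1 : ZMod p) := one_mem_nthRootsFinset hd
  rw [← Finset.mul_prod_erase _ _ h1mem, mul_coeff_one] at hRHS
  simp only [coeff_add, coeff_C_zero, coeff_X_mul_zero, add_zero, map_one] at hRHS
  have h9 : (C (G g 1) : K[X][X]).coeff 1 + (X * C (G e 1) : K[X][X]).coeff 1 = G e 1 := by
    rw [coeff_C, if_neg one_ne_zero, zero_add, coeff_X_mul, coeff_C_zero]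
  rw [h9] at hRHS
  have h10 : (∏ x ∈ (nthRootsFinset d (1 : ZMod p)).erase 1, (C (G g (φ x)) + X * C (G e (φ x)) :
      K[X][X])).coeff 0 = ∏ x ∈ (nthRootsFinset d (1 : ZMod p)).erase 1, G g (φ x) := by
    rw [coeff_zero_prod]
    refine Finset.prod_congr rfl fun x _ => ?_
    rw [coeff_add, coeff_C_zero, coeff_X_mul_zero, add_zero]
  rw [h10] at hRHS
  -- evaluation
  have hev : ∀ (h : Fin (N + 1) → K) (z x : K), (G h z).eval x = bf (φ c) h (z * x) 1 := by
    intro h z x
    have h11 := map_bf (evalRingHom x) (C (φ c)) (fun j => C (h j)) (C z * X) (1 : K[X])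
    simpa using h11
  have hco : IsCoprime (G g 1) (∏ x ∈ (nthRootsFinset d (1 : ZMod p)).erase 1, G g (φ x)) := by
    refine IsCoprime.prod_right fun z hz => ?_
    rw [Finset.mem_erase] at hz
    rw [isCoprime_iff_aeval_ne_zero_of_isAlgClosed K K]
    intro x
    rw [coe_aeval_eq_eval]
    by_cases hx : (G g 1).eval x = 0
    · right
      rw [hev, one_mul] at hx
      rw [hev]
      exact hcop z hz.2 hz.1 x hx
    · left
      exact hx
  have hdvd : G g 1 ∣ G e 1 := by
    have h12 : G g 1 ∣ G e 1 * ∏ x ∈ (nthRootsFinset d (1 : ZMod p)).erase 1, G g (φ x) := by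
      refine ⟨-(∏ x ∈ (nthRootsFinset d (1 : ZMod p)).erase 1, (C (G g (φ x)) + X * C (G e (φ x)) :
        K[X][X])).coeff 1, ?_⟩
      linear_combination hRHS
    exact hco.dvd_of_dvd_mul_right h12
  have hG1 : G g 1 ≠ 0 := bf_poly_ne_zero hc' hg one_ne_zero
  have hdeg : (G g 1).natDegree = N := by
    refine le_antisymm (natDegree_bf_le _ _ _) (le_natDegree_of_ne_zero ?_)
    have h13 : (G g 1).coeff N = g 0 * (-1) ^ N := coeff_bf _ _ _
    rw [h13]
    exact mul_ne_zero hg0 (pow_ne_zero _ (neg_ne_zero.2 one_ne_zero))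
  obtain ⟨q, hq⟩ := hdvd
  have hq0 : q.natDegree = 0 := by
    by_cases hqz : q = 0
    · rw [hqz, natDegree_zero]
    · have h14 : (G e 1).natDegree ≤ N := natDegree_bf_le _ _ _
      rw [hq, natDegree_mul hG1 hqz, hdeg] at h14
      omega
  obtain ⟨κ, rfl⟩ : ∃ κ, q = C κ := ⟨_, eq_C_of_natDegree_eq_zero hq0⟩
  have hek : e = fun j => κ * g j := by
    by_contra hne
    have hne' : (fun j => e j + (-κ) * g j) ≠ 0 := by
      intro h0
      apply hne
      funext j
      have := congrFun h0 j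
      simp only [Pi.zero_apply] at this
      linear_combination this
    apply bf_poly_ne_zero hc' hne' one_ne_zero
    have h15 := bf_add (C (φ c)) (fun j => C (e j)) (fun j => C (g j)) (C 1 * X) (1 : K[X]) (C (-κ))
    have h16 : (fun j => C (e j + -κ * g j)) = fun j => (C (e j) + C (-κ) * C (g j) : K[X]) := by
      funext j
      rw [C_add, C_mul]
    rw [h16, h15]
    have h17 : bf (C (φ c)) (fun j => C (e j)) (C 1 * X) (1 : K[X]) = G e 1 := rfl
    have h18 : bf (C (φ c)) (fun j => C (g j)) (C 1 * X) (1 : K[X]) = G g 1 := rfl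
    rw [h17, h18, hq, C_neg]
    ring
  have hκ : κ ≠ 0 := by
    rintro rfl
    apply he0
    rw [hek]
    funext j
    simp
  -- Euler
  apply FK_ne_zero (φ := φ) hw hd hc hg
  funext i
  have h19 := congrArg (MvPolynomial.eval₂Hom φ g) (Fb_hom (c := c) hw i).sum_X_mul_pderiv
  rw [map_sum, nsmul_eq_mul, map_mul, map_natCast] at h19
  have h20 := he' i
  rw [hek] at h20
  have h21 : ∑ j, κ * g j * MvPolynomial.eval₂Hom φ g (MvPolynomial.pderiv j (Fb N d c i)) =
      κ * ((d : K) * MvPolynomial.eval₂Hom φ g (Fb N d c i)) := by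
    rw [← h19, Finset.mul_sum]
    refine Finset.sum_congr rfl fun j _ => ?_
    rw [map_mul, MvPolynomial.eval₂Hom_X']
    ring
  rw [h21] at h20
  exact (mul_eq_zero.1 ((mul_eq_zero.1 h20).resolve_left hκ)).resolve_left hdp

end crit

end

end Pool.Agent.Helper26.FD
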