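import Mathlib
import Pool.Agent.Helper26.FD.Sym3
import Pool.Agent.Helper86.DML.Complete
import Pool.Agent.Helper86.DML.Operator

/-!
# FD: interpolation in an unramified residue disc
-/

set_option autoImplicit false

namespace Pool.Agent.Helper26.FD

open MvPolynomial Pool.Agent.Helper86.DML

noncomputable section

variable {n : ℕ} {O : Type*} [CommRing O]

/-- first order expansion of `zoom` -/
theorem zoom_expand (x : Fin n → O) (q : O) (P : MvPolynomial (Fin n) O) :
    ∃ r : MvPolynomial (Fin n) O, zoom x q P = C (eval x P) +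
      C q * (∑ j, C (eval x (pderiv j P)) * X j + C q * r) := by
  obtain ⟨r, hr⟩ := eval₂_taylor (C : O →+* MvPolynomial (Fin n) O) P (fun j => C (x j))
    (fun j => X j) (C q)
  have h1 : ∀ Q : MvPolynomial (Fin n) O, eval₂Hom (C : O →+* MvPolynomial (Fin n) O)
      (fun j => C (x j)) Q = C (eval x Q) := by
    intro Q
    have h := map_eval₂Hom (RingHom.id O) x (C : O →+* MvPolynomial (Fin n) O) Q
    rw [RingHom.comp_id] at h
    exact h.symm
  refine ⟨r, ?_⟩
  have h2 : zoom x q P = eval₂Hom C (fun j => C (x j) + C q * X j) P := rfl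
  rw [h2, hr, h1]
  simp only [h1]
  have h3 : (∑ j, X j * C (eval x (pderiv j P)) : MvPolynomial (Fin n) O) =
      ∑ j, C (eval x (pderiv j P)) * X j := Finset.sum_congr rfl fun j _ => mul_comm _ _
  rw [h3]
  ring

theorem alg_mem_affSub {R : Type*} [CommRing R] {ψ : Fin n → MvPolynomial (Fin n) R}
    (hψ : ∀ i, ψ i ∈ affSub (Fin n) R) {F : MvPolynomial (Fin n) R} (hF : F ∈ affSub (Fin n) R) :
    bind₁ ψ F ∈ affSub (Fin n) R := bind₁_mem_affSub hψ hF

/-- linear substitutions by invertible matrices are injective -/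
theorem lin_injective {R : Type*} [CommRing R] {A : Matrix (Fin n) (Fin n) R} (hA : IsUnit A.det) :
    Function.Injective (bind₁ (fun i => ∑ j, C (A i j) * X j :
      Fin n → MvPolynomial (Fin n) R)) := by
  have h : (bind₁ (fun i => ∑ j, C (A⁻¹ i j) * X j :
      Fin n → MvPolynomial (Fin n) R)).comp (bind₁ (fun i => ∑ j, C (A i j) * X j :
      Fin n → MvPolynomial (Fin n) R)) = AlgHom.id R _ := by
    apply algHom_ext
    intro i
    rw [AlgHom.comp_apply, bind₁_X_right, map_sum, AlgHom.id_apply]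
    simp only [map_mul, bind₁_C_right, bind₁_X_right, Finset.mul_sum]
    rw [Finset.sum_comm]
    have h1 : ∀ k, (∑ j, C (A i j) * (C (A⁻¹ j k) * X k) : MvPolynomial (Fin n) R) =
        C ((A * A⁻¹) i k) * X k := by
      intro k
      rw [Matrix.mul_apply, map_sum, Finset.sum_mul]
      exact Finset.sum_congr rfl fun j _ => by rw [C_mul, mul_assoc]
    simp only [h1, Matrix.mul_nonsing_inv A hA, Matrix.one_apply]
    rw [Finset.sum_eq_single i]
    · simp
    · intro b _ hb
      rw [if_neg (Ne.symm hb), C_0, zero_mul]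
    · intro hi
      exact absurd (Finset.mem_univ _) hi
  intro a b hab
  have h2 := congrArg (bind₁ (fun i => ∑ j, C (A⁻¹ i j) * X j :
      Fin n → MvPolynomial (Fin n) R)) hab
  rw [← AlgHom.comp_apply, ← AlgHom.comp_apply, h] at h2
  exact h2

theorem trans_injective {R : Type*} [CommRing R] (c : Fin n → R) :
    Function.Injective (bind₁ (fun i => X i + C (c i) : Fin n → MvPolynomial (Fin n) R)) := by
  have h : (bind₁ (fun i => X i - C (c i) : Fin n → MvPolynomial (Fin n) R)).comp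
      (bind₁ (fun i => X i + C (c i) : Fin n → MvPolynomial (Fin n) R)) = AlgHom.id R _ := by
    apply algHom_ext
    intro i
    rw [AlgHom.comp_apply, bind₁_X_right, map_add, bind₁_X_right, bind₁_C_right]
    simp
  intro a b hab
  have h2 := congrArg (bind₁ (fun i => X i - C (c i) : Fin n → MvPolynomial (Fin n) R)) hab
  rw [← AlgHom.comp_apply, ← AlgHom.comp_apply, h] at h2
  exact h2

/-- the composed substitution in the local coordinates -/
def comps (ψ : ℕ → Fin n → MvPolynomial (Fin n) O) : ℕ →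
    (MvPolynomial (Fin n) O →ₐ[O] MvPolynomial (Fin n) O)
  | 0 => AlgHom.id O _
  | k + 1 => (comps ψ k).comp (bind₁ (ψ k))

theorem map_comps {R : Type*} [CommRing R] (π : O →+* R)
    (ψ : ℕ → Fin n → MvPolynomial (Fin n) O) (k : ℕ) (F : MvPolynomial (Fin n) O) :
    map π (comps ψ k F) = comps (fun k i => map π (ψ k i)) k (map π F) := by
  induction k generalizing F with
  | zero => rfl
  | succ k ih => rw [comps, comps, AlgHom.comp_apply, AlgHom.comp_apply, ih, map_bind₁]

theorem comps_injective {R : Type*} [CommRing R] {ψ : ℕ → Fin n → MvPolynomial (Fin n) R}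
    (k : ℕ) (h : ∀ j < k, Function.Injective (bind₁ (ψ j))) : Function.Injective (comps ψ k) := by
  induction k with
  | zero => exact fun a b hab => hab
  | succ k ih =>
    rw [comps, AlgHom.coe_comp]
    exact (ih fun j hj => h j (by omega)).comp (h k (by omega))

theorem comps_aff {R : Type*} [CommRing R] {ψ : ℕ → Fin n → MvPolynomial (Fin n) R}
    (hψ : ∀ k i, ψ k i ∈ affSub (Fin n) R) (k : ℕ) {F : MvPolynomial (Fin n) R}
    (hF : F ∈ affSub (Fin n) R) : comps ψ k F ∈ affSub (Fin n) R := by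
  induction k generalizing F with
  | zero => exact hF
  | succ k ih =>
    rw [comps, AlgHom.comp_apply]
    exact ih (bind₁_mem_affSub (hψ k) hF)

/-- the local substitution of the step `k` -/
def locψ (p : ℕ) (Φ : Fin n → MvPolynomial (Fin n) O) (x : ℕ → Fin n → O)
    (r : ℕ → Fin n → MvPolynomial (Fin n) O) (k : ℕ) (i : Fin n) : MvPolynomial (Fin n) O :=
  ∑ j, C (eval (x k) (pderiv j (Φ i))) * X j + C (p : O) * r k i

theorem loc_step {p : ℕ} (Φ : Fin n → MvPolynomial (Fin n) O) (x : ℕ → Fin n → O)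
    (hx : ∀ k, x (k + 1) = pmap Φ (x k)) (r : ℕ → Fin n → MvPolynomial (Fin n) O)
    (hr : ∀ k i, zoom (x k) (p : O) (Φ i) = C (eval (x k) (Φ i)) +
      C (p : O) * (∑ j, C (eval (x k) (pderiv j (Φ i))) * X j + C (p : O) * r k i)) (k : ℕ)
    (F : MvPolynomial (Fin n) O) : zoom (x k) (p : O) (bind₁ Φ F) =
      bind₁ (locψ p Φ x r k) (zoom (x (k + 1)) (p : O) F) := by
  have h : (zoom (x k) (p : O)).comp (bind₁ Φ) =
      (bind₁ (locψ p Φ x r k)).comp (zoom (x (k + 1)) (p : O)) := by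
    apply algHom_ext
    intro i
    have h2 : zoom (x (k + 1)) (p : O) (X i) = C (x (k + 1) i) + C (p : O) * X i :=
      bind₁_X_right _ _
    have h3 : x (k + 1) i = eval (x k) (Φ i) := congrFun (hx k) i
    rw [AlgHom.comp_apply, AlgHom.comp_apply, bind₁_X_right, hr, h2, map_add, map_mul,
      bind₁_C_right, bind₁_C_right, bind₁_X_right, h3, locψ]
  exact DFunLike.congr_fun h F

theorem loc_comp {p : ℕ} (Φ : Fin n → MvPolynomial (Fin n) O) (x : ℕ → Fin n → O)
    (hx : ∀ k, x (k + 1) = pmap Φ (x k)) (r : ℕ → Fin n → MvPolynomial (Fin n) O)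
    (hr : ∀ k i, zoom (x k) (p : O) (Φ i) = C (eval (x k) (Φ i)) +
      C (p : O) * (∑ j, C (eval (x k) (pderiv j (Φ i))) * X j + C (p : O) * r k i)) (k : ℕ)
    (F : MvPolynomial (Fin n) O) : zoom (x 0) (p : O) (((bind₁ Φ) ^ k) F) =
      comps (locψ p Φ x r) k (zoom (x k) (p : O) F) := by
  induction k generalizing F with
  | zero => rfl
  | succ k ih =>
    rw [pow_succ, AlgHom.mul_apply, ih, loc_step Φ x hx r hr, comps, AlgHom.comp_apply]

theorem loc_trans {p : ℕ} {x y : Fin n → O} {c : Fin n → O} (hc : ∀ i, y i - x i = (p : O) * c i)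
    (F : MvPolynomial (Fin n) O) :
    zoom y (p : O) F = bind₁ (fun i => X i + C (c i)) (zoom x (p : O) F) := by
  have h : zoom y (p : O) = (bind₁ (fun i => X i + C (c i))).comp (zoom x (p : O)) := by
    apply algHom_ext
    intro i
    have h2 : ∀ z : Fin n → O, zoom z (p : O) (X i) = C (z i) + C (p : O) * X i :=
      fun z => bind₁_X_right _ _
    rw [AlgHom.comp_apply, h2, h2, map_add, map_mul, bind₁_C_right, bind₁_C_right, bind₁_X_right]
    have h4 : y i = x i + (p : O) * c i := by rw [← hc i]; ring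
    rw [h4, C_add, C_mul]
    ring
  exact DFunLike.congr_fun h F

theorem loc_pow {p : ℕ} (Φ : Fin n → MvPolynomial (Fin n) O) (x : Fin n → O) (ℓ : ℕ)
    (S : MvPolynomial (Fin n) O →ₐ[O] MvPolynomial (Fin n) O)
    (hS : ∀ F, zoom x (p : O) (((bind₁ Φ) ^ ℓ) F) = S (zoom x (p : O) F)) (k : ℕ)
    (F : MvPolynomial (Fin n) O) :
    zoom x (p : O) (((bind₁ Φ) ^ (ℓ * k)) F) = (S ^ k) (zoom x (p : O) F) := by
  induction k generalizing F with
  | zero => rfl
  | succ k ih =>
    have h5 : ℓ * (k + 1) = ℓ + ℓ * k := by ring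
    rw [h5, pow_add, AlgHom.mul_apply, hS, ih, pow_succ', AlgHom.mul_apply]

/-- an affine substitution which is injective modulo `p` has an iterate which is the identity
modulo `p` -/
theorem exists_iter_one {p : ℕ} [Finite (O ⧸ Ideal.span {(p : O)})]
    (S : MvPolynomial (Fin n) O →ₐ[O] MvPolynomial (Fin n) O)
    (hSaff : ∀ i, map (Ideal.Quotient.mk (Ideal.span {(p : O)})) (S (X i)) ∈
      affSub (Fin n) (O ⧸ Ideal.span {(p : O)}))
    (hinj : Function.Injective
      (bind₁ (fun i => map (Ideal.Quotient.mk (Ideal.span {(p : O)})) (S (X i))))) :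
    ∃ M, 1 ≤ M ∧ ∀ i, ∃ u, (S ^ M) (X i) = X i + C (p : O) * u := by
  obtain ⟨M, hM, hidem⟩ := exists_pow_idem_bind₁
    (ψ := fun i => map (Ideal.Quotient.mk (Ideal.span {(p : O)})) (S (X i))) hSaff
  have hinjM : ∀ k : ℕ, Function.Injective
      ((bind₁ (fun i => map (Ideal.Quotient.mk (Ideal.span {(p : O)})) (S (X i)))) ^ k) := by
    intro k
    induction k with
    | zero => exact fun a b hab => hab
    | succ k ih =>
      intro a b hab
      rw [pow_succ, AlgHom.mul_apply, AlgHom.mul_apply] at hab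
      exact hinj (ih hab)
  have hone : ∀ i, ((bind₁ (fun i => map (Ideal.Quotient.mk (Ideal.span {(p : O)})) (S (X i)))) ^ M)
      (X i) = X i := by
    intro i
    apply hinjM M
    rw [← AlgHom.mul_apply, hidem]
  have hSb : S = bind₁ (fun i => S (X i)) := by
    apply algHom_ext
    intro i
    rw [bind₁_X_right]
  refine ⟨M, hM, fun i => ?_⟩
  have h13 := map_bind₁_pow (Ideal.Quotient.mk (Ideal.span {(p : O)})) (fun i => S (X i)) M (X i)
  rw [← hSb, map_X, hone] at h13
  have h14 : C (p : O) ∣ (S ^ M) (X i) - X i := by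
    rw [C_dvd_iff_map_hom_eq_zero (Ideal.Quotient.mk (Ideal.span {(p : O)})) (p : O)]
    · rw [map_sub, h13, map_X, sub_self]
    · intro r
      rw [Ideal.Quotient.eq_zero_iff_mem, Ideal.mem_span_singleton]
  obtain ⟨u, hu⟩ := h14
  exact ⟨u, by rw [← hu]; ring⟩

theorem C_mem_affSub {R : Type*} [CommRing R] (a : R) :
    (C a : MvPolynomial (Fin n) R) ∈ affSub (Fin n) R := by
  have h7 : (1 : MvPolynomial (Fin n) R) ∈ affSub (Fin n) R :=
    Submodule.subset_span (Set.mem_insert _ _)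
  have h8 := Submodule.smul_mem _ a h7
  rwa [MvPolynomial.smul_eq_C_mul, mul_one] at h8

theorem X_mem_affSub {R : Type*} [CommRing R] (j : Fin n) :
    (X j : MvPolynomial (Fin n) R) ∈ affSub (Fin n) R :=
  Submodule.subset_span (Set.mem_insert_of_mem _ ⟨j, rfl⟩)

theorem map_locψ {R : Type*} [CommRing R] (π : O →+* R) {p : ℕ} (hπp : π (p : O) = 0)
    (Φ : Fin n → MvPolynomial (Fin n) O) (x : ℕ → Fin n → O)
    (r : ℕ → Fin n → MvPolynomial (Fin n) O) (k : ℕ) (i : Fin n) :
    map π (locψ p Φ x r k i) = ∑ j, C (π (eval (x k) (pderiv j (Φ i)))) * X j := by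
  simp only [locψ, map_add, map_mul, map_C, hπp, C_0, zero_mul, add_zero, map_sum, map_X]

theorem loc_aff {R : Type*} [CommRing R] (π : O →+* R) {p : ℕ} (hπp : π (p : O) = 0)
    (Φ : Fin n → MvPolynomial (Fin n) O) (x : ℕ → Fin n → O)
    (r : ℕ → Fin n → MvPolynomial (Fin n) O) (k : ℕ) (i : Fin n) :
    map π (locψ p Φ x r k i) ∈ affSub (Fin n) R := by
  rw [map_locψ π hπp]
  refine Submodule.sum_mem _ fun j _ => ?_
  rw [← MvPolynomial.smul_eq_C_mul]
  exact Submodule.smul_mem _ _ (X_mem_affSub j)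

theorem loc_inj {R : Type*} [CommRing R] (π : O →+* R) {p : ℕ} (hπp : π (p : O) = 0)
    (Φ : Fin n → MvPolynomial (Fin n) O) (x : ℕ → Fin n → O)
    (r : ℕ → Fin n → MvPolynomial (Fin n) O) (k : ℕ)
    (hdet : IsUnit (Matrix.of fun i j => eval (x k) (pderiv j (Φ i))).det) :
    Function.Injective (bind₁ (fun i => map π (locψ p Φ x r k i))) := by
  have h11 : (fun i => map π (locψ p Φ x r k i)) = fun i => ∑ j', C (((Matrix.of fun i j' =>
      eval (x k) (pderiv j' (Φ i))).map π) i j') * X j' := by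
    funext i
    rw [map_locψ π hπp]
    rfl
  rw [h11]
  apply lin_injective
  have h12 := RingHom.map_det π (Matrix.of fun i j' => eval (x k) (pderiv j' (Φ i)))
  rw [RingHom.mapMatrix_apply] at h12
  rw [← h12]
  exact hdet.map π

theorem red_S {R : Type*} [CommRing R] (π : O →+* R) {p : ℕ} (hπp : π (p : O) = 0)
    (Φ : Fin n → MvPolynomial (Fin n) O) (x : ℕ → Fin n → O)
    (r : ℕ → Fin n → MvPolynomial (Fin n) O) (ℓ : ℕ) (c : Fin n → O)
    (hdet : ∀ k, IsUnit (Matrix.of fun i j => eval (x k) (pderiv j (Φ i))).det)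
    (S : MvPolynomial (Fin n) O →ₐ[O] MvPolynomial (Fin n) O)
    (hSdef : ∀ F, S F = comps (locψ p Φ x r) ℓ (bind₁ (fun i => X i + C (c i)) F)) :
    (∀ i, map π (S (X i)) ∈ affSub (Fin n) R) ∧
      Function.Injective (bind₁ (fun i => map π (S (X i)))) := by
  have hmapS : ∀ i, map π (S (X i)) = comps (fun k i => map π (locψ p Φ x r k i)) ℓ
      (X i + C (π (c i))) := by
    intro i
    rw [hSdef, map_comps, bind₁_X_right, map_add, map_X, map_C]
  refine ⟨fun i => ?_, ?_⟩
  · rw [hmapS]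
    exact comps_aff (loc_aff π hπp Φ x r) ℓ (Submodule.add_mem _ (X_mem_affSub i) (C_mem_affSub _))
  · have h10 : bind₁ (fun i => map π (S (X i))) =
        (comps (fun k i => map π (locψ p Φ x r k i)) ℓ).comp
          (bind₁ (fun i => X i + C (π (c i)))) := by
      apply algHom_ext
      intro i
      rw [bind₁_X_right, hmapS, AlgHom.comp_apply, bind₁_X_right]
    intro a b hab
    rw [h10, AlgHom.comp_apply, AlgHom.comp_apply] at hab
    exact trans_injective _ (comps_injective ℓ (fun j _ => loc_inj π hπp Φ x r j (hdet j)) hab)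

theorem exists_r {p : ℕ}
    (Φ : Fin n → MvPolynomial (Fin n) O) (x : ℕ → Fin n → O) :
    ∃ r : ℕ → Fin n → MvPolynomial (Fin n) O, ∀ k i, zoom (x k) (p : O) (Φ i) = C (eval (x k) (Φ i)) +
      C (p : O) * (∑ j, C (eval (x k) (pderiv j (Φ i))) * X j + C (p : O) * r k i) := by
  choose r hr using fun k i => zoom_expand (x k) (p : O) (Φ i)
  exact ⟨r, hr⟩

theorem exists_S (ψ : ℕ → Fin n → MvPolynomial (Fin n) O) (ℓ : ℕ) (c : Fin n → O) :
    ∃ S : MvPolynomial (Fin n) O →ₐ[O] MvPolynomial (Fin n) O, ∀ F, S F =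
      comps ψ ℓ (bind₁ (fun i => X i + C (c i)) F) :=
    ⟨(comps ψ ℓ).comp (bind₁ (fun i => X i + C (c i))), fun F => AlgHom.comp_apply _ _ F⟩

theorem mk_p (p : ℕ) : Ideal.Quotient.mk (Ideal.span {(p : O)}) (p : O) = 0 := by
    rw [Ideal.Quotient.eq_zero_iff_mem]
    exact Ideal.mem_span_singleton_self _

theorem exists_interp1 {p : ℕ}
    (Φ : Fin n → MvPolynomial (Fin n) O) (x : ℕ → Fin n → O)
    (hx : ∀ k, x (k + 1) = pmap Φ (x k)) {ℓ : ℕ} {c : Fin n → O}
    (hc : ∀ i, x ℓ i - x 0 i = (p : O) * c i)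
    (hdet : ∀ k, IsUnit (Matrix.of fun i j => eval (x k) (pderiv j (Φ i))).det) :
    ∃ (S : MvPolynomial (Fin n) O →ₐ[O] MvPolynomial (Fin n) O),
    (∀ F, zoom (x 0) (p : O) (((bind₁ Φ) ^ ℓ) F) = S (zoom (x 0) (p : O) F)) ∧
    (∀ i, map (Ideal.Quotient.mk (Ideal.span {(p : O)})) (S (X i)) ∈
      affSub (Fin n) (O ⧸ Ideal.span {(p : O)})) ∧ Function.Injective
      (bind₁ (fun i => map (Ideal.Quotient.mk (Ideal.span {(p : O)})) (S (X i)))) := by
  obtain ⟨r, hr⟩ := exists_r (p := p) Φ x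
  obtain ⟨S, hSdef⟩ := exists_S (locψ p Φ x r) ℓ c
  have h := red_S (Ideal.Quotient.mk (Ideal.span {(p : O)})) (mk_p p) Φ x r ℓ c hdet S hSdef
  refine ⟨S, fun F => ?_, h⟩
  rw [loc_comp Φ x hx r hr, loc_trans hc, hSdef]

/-- **Interpolation data** for a cycle of residue discs along which the map is unramified. -/
theorem exists_interp {p : ℕ} [Finite (O ⧸ Ideal.span {(p : O)})]
    (Φ : Fin n → MvPolynomial (Fin n) O) (x : ℕ → Fin n → O)
    (hx : ∀ k, x (k + 1) = pmap Φ (x k)) {ℓ : ℕ}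
    (hper : ∀ i, (p : O) ∣ x ℓ i - x 0 i)
    (hdet : ∀ k, IsUnit (Matrix.of fun i j => eval (x k) (pderiv j (Φ i))).det) :
    ∃ M, 1 ≤ M ∧ ∃ u : Fin n → MvPolynomial (Fin n) O, ∀ i,
      zoom (x 0) (p : O) (((bind₁ Φ) ^ (ℓ * M)) (X i)) =
        C (x 0 i) + C (p : O) * (X i + C (p : O) * u i) := by
  have hper' : ∃ c : Fin n → O, ∀ i, x ℓ i - x 0 i = (p : O) * c i :=
    ⟨fun i => (hper i).choose, fun i => (hper i).choose_spec⟩
  obtain ⟨c, hc⟩ := hper'
  obtain ⟨S, hS, hSaff, hinj⟩ := exists_interp1 Φ x hx hc hdet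
  obtain ⟨M, hM, hu⟩ := exists_iter_one S hSaff hinj
  refine ⟨M, hM, fun i => (hu i).choose, fun i => ?_⟩
  have h16 : zoom (x 0) (p : O) (X i) = C (x 0 i) + C (p : O) * X i := bind₁_X_right _ _
  rw [loc_pow Φ (x 0) ℓ S hS, h16, map_add, map_mul, algHom_C, algHom_C, (hu i).choose_spec,
    algebraMap_eq]

end

end Pool.Agent.Helper26.FD
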