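import Mathlib
import Pool.Agent.Helper26.FD.Loc
import Pool.Agent.Helper86.DML.Padic

/-!
# FD: the sequences are analytic, and their zeros
-/

set_option autoImplicit false

namespace Pool.Agent.Helper26.FD

open MvPolynomial Pool.Agent.Helper86.DML

noncomputable section

section Abstract

variable {O P : Type*} [CommRing O] [AddCommGroup P] [Module O P]

theorem An_of_end (S : Module.End O P) (p : ℕ) (hS : ∀ F, ∃ F', S F - F = (p : O) • F')
    (ev : P →ₗ[O] O) (F : P) : An p (fun n => ev ((S ^ n) F)) := by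
  have h : ∀ (k : ℕ) (F : P), ∃ F', ((S - 1) ^ k) F = (p : O) ^ k • F' := by
    intro k
    induction k with
    | zero => intro F; exact ⟨F, by simp⟩
    | succ k ih =>
      intro F
      obtain ⟨F', hF'⟩ := hS F
      obtain ⟨F'', hF''⟩ := ih F'
      refine ⟨F'', ?_⟩
      rw [pow_succ, Module.End.mul_apply, LinearMap.sub_apply, Module.End.one_apply, hF', map_smul,
        hF'', smul_smul, ← pow_succ']
  intro k n
  rw [fwdDiff_iter_end, Module.End.mul_apply]
  obtain ⟨F', hF'⟩ := h k ((S ^ n) F)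
  rw [hF', map_smul, smul_eq_mul]
  exact dvd_mul_right _ _

end Abstract

section Seq

variable {n : ℕ} {O O' : Type*} [CommRing O] [CommRing O']

theorem bind₁_congr_mod (p : O') (u : Fin n → MvPolynomial (Fin n) O')
    (F : MvPolynomial (Fin n) O') : ∃ F', bind₁ (fun i => X i + C p * u i) F - F = p • F' := by
  induction F using MvPolynomial.induction_on with
  | C a => exact ⟨0, by rw [bind₁_C_right]; simp⟩
  | add F G hF hG =>
    obtain ⟨F', hF'⟩ := hF
    obtain ⟨G', hG'⟩ := hG
    refine ⟨F' + G', ?_⟩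
    rw [map_add, smul_add, ← hF', ← hG']
    ring
  | mul_X F i hF =>
    obtain ⟨F', hF'⟩ := hF
    refine ⟨F' * (X i + C p * u i) + F * u i, ?_⟩
    rw [map_mul, bind₁_X_right]
    have h1 : bind₁ (fun i => X i + C p * u i) F = F + C p * F' := by
      rw [← MvPolynomial.smul_eq_C_mul, ← hF']
      ring
    rw [h1, MvPolynomial.smul_eq_C_mul]
    ring

theorem eval_zoom' (x y : Fin n → O') (q : O') (F : MvPolynomial (Fin n) O') :
    eval y (zoom x q F) = eval (fun i => x i + q * y i) F := by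
  have h := eval₂Hom_bind₁ (RingHom.id O') y (fun i => C (x i) + C q * X i) F
  have h2 : eval y (zoom x q F) = eval (fun i => eval y (C (x i) + C q * X i)) F := h
  rw [h2]
  simp

theorem map_zoom (ρ : O →+* O') (x : Fin n → O) (q : O) (F : MvPolynomial (Fin n) O) :
    map ρ (zoom x q F) = zoom (fun i => ρ (x i)) (ρ q) (map ρ F) := by
  rw [zoom, zoom, map_bind₁]
  simp only [map_add, map_mul, map_C, map_X]

theorem interp_step (ρ : O →+* O') {p : ℕ} {Φ : Fin n → MvPolynomial (Fin n) O} {x₀ : Fin n → O}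
    {L : ℕ} {u : Fin n → MvPolynomial (Fin n) O}
    (h : ∀ i, zoom x₀ (p : O) (((bind₁ Φ) ^ L) (X i)) =
      C (x₀ i) + C (p : O) * (X i + C (p : O) * u i)) (y : Fin n → O') :
    (pmap (fun i => map ρ (Φ i)))^[L] (fun i => ρ (x₀ i) + (p : O') * y i) =
      fun i => ρ (x₀ i) + (p : O') * (y i + (p : O') * eval y (map ρ (u i))) := by
  funext i
  have h1 : eval y (map ρ (zoom x₀ (p : O) (((bind₁ Φ) ^ L) (X i)))) = eval y (map ρ
      (C (x₀ i) + C (p : O) * (X i + C (p : O) * u i))) := by rw [h i]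
  rw [map_zoom, eval_zoom', map_natCast, map_bind₁_pow, eval_bind₁_pow, map_X, eval_X] at h1
  rw [h1]
  simp

theorem interp_iter (ρ : O →+* O') {p : ℕ} {Φ : Fin n → MvPolynomial (Fin n) O} {x₀ : Fin n → O}
    {L : ℕ} {u : Fin n → MvPolynomial (Fin n) O}
    (h : ∀ i, zoom x₀ (p : O) (((bind₁ Φ) ^ L) (X i)) =
      C (x₀ i) + C (p : O) * (X i + C (p : O) * u i)) (y : Fin n → O') (k : ℕ) :
    (pmap (fun i => map ρ (Φ i)))^[L * k] (fun i => ρ (x₀ i) + (p : O') * y i) =
      fun i => ρ (x₀ i) + (p : O') *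
        ((pmap (fun i => X i + C (p : O') * map ρ (u i)))^[k] y) i := by
  induction k with
  | zero => rfl
  | succ k ih =>
    have h1 : L * (k + 1) = L + L * k := by ring
    rw [h1, Function.iterate_add_apply, ih, interp_step ρ h, Function.iterate_succ_apply']
    funext i
    simp [pmap]

theorem interp_An (ρ : O →+* O') {p : ℕ} {Φ : Fin n → MvPolynomial (Fin n) O} {x₀ : Fin n → O}
    {L : ℕ} {u : Fin n → MvPolynomial (Fin n) O}
    (h : ∀ i, zoom x₀ (p : O) (((bind₁ Φ) ^ L) (X i)) =
      C (x₀ i) + C (p : O) * (X i + C (p : O) * u i)) (y : Fin n → O')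
    (F : MvPolynomial (Fin n) O') :
    An p (fun k => eval ((pmap (fun i => map ρ (Φ i)))^[L * k]
      (fun i => ρ (x₀ i) + (p : O') * y i)) F) := by
  have h1 := An_of_end ((bind₁ (fun i => X i + C (p : O') * map ρ (u i))).toLinearMap :
    Module.End O' (MvPolynomial (Fin n) O')) p (fun F => bind₁_congr_mod _ _ F)
    ((MvPolynomial.aeval y : MvPolynomial (Fin n) O' →ₐ[O'] O').toLinearMap)
    (zoom (fun i => ρ (x₀ i)) (p : O') F)
  have h2 : (fun k => eval ((pmap (fun i => map ρ (Φ i)))^[L * k]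
      (fun i => ρ (x₀ i) + (p : O') * y i)) F) = fun k =>
      ((MvPolynomial.aeval y : MvPolynomial (Fin n) O' →ₐ[O'] O').toLinearMap)
        ((((bind₁ (fun i => X i + C (p : O') * map ρ (u i))).toLinearMap :
          Module.End O' (MvPolynomial (Fin n) O')) ^ k) (zoom (fun i => ρ (x₀ i)) (p : O') F)) := by
    funext k
    have h3 : ∀ (k : ℕ) (G : MvPolynomial (Fin n) O'),
        ((((bind₁ (fun i => X i + C (p : O') * map ρ (u i))).toLinearMap :
          Module.End O' (MvPolynomial (Fin n) O')) ^ k) G) =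
          ((bind₁ (fun i => X i + C (p : O') * map ρ (u i))) ^ k) G := by
      intro k
      induction k with
      | zero => intro G; rfl
      | succ k ih =>
        intro G
        rw [pow_succ, Module.End.mul_apply, ih, pow_succ, AlgHom.mul_apply]
        rfl
    have h4 : ∀ G : MvPolynomial (Fin n) O',
        (MvPolynomial.aeval y : MvPolynomial (Fin n) O' →ₐ[O'] O') G = eval y G := by
      intro G
      rw [← MvPolynomial.coe_aeval_eq_eval]
      rfl
    rw [h3, AlgHom.toLinearMap_apply, h4, eval_bind₁_pow, eval_zoom', interp_iter ρ h]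
  rw [h2]
  exact h1

end Seq

section Zeros

variable {p : ℕ} [hp : Fact p.Prime]

theorem An_zeros_padic (hp3 : 3 ≤ p) {g : ℕ → ℤ_[p]} (hg : An p g)
    (hinf : {n | g n = 0}.Infinite) : ∀ n, g n = 0 := by
  by_contra hcon
  push Not at hcon
  obtain ⟨s, β, h⟩ := zero_estimate hp3 hg hcon
  obtain ⟨T, hT, hcard⟩ := hinf.exists_subset_card_eq (s + 1)
  obtain ⟨δ, hδ⟩ : ∃ δ, ∀ n ∈ T, n ≤ δ := ⟨T.sup id, fun n hn => Finset.le_sup (f := id) hn⟩
  have h1 := h (β + s * δ + 1) δ T (by omega) (fun n hn => by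
    have h2 : g n = 0 := hT hn
    rw [h2]
    exact dvd_zero _) (by
    intro k hk m hm hkm hd
    have h2 : ((p : ℤ) ^ (δ + 1)) ∣ ((k : ℤ) - m) := by
      have := (PadicInt.pow_p_dvd_int_iff (p := p) (δ + 1) ((k : ℤ) - m)).mp
        (by push_cast; exact hd)
      exact_mod_cast this
    have h3 : (δ + 1 : ℤ) ≤ (p : ℤ) ^ (δ + 1) := by
      have h4 : δ + 1 < p ^ (δ + 1) := Nat.lt_pow_self hp.out.one_lt
      exact_mod_cast h4.le
    have h5 : |(k : ℤ) - m| < (p : ℤ) ^ (δ + 1) := by
      have e1 : (k : ℤ) ≤ δ := by exact_mod_cast hδ k hk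
      have e2 : (m : ℤ) ≤ δ := by exact_mod_cast hδ m hm
      rw [abs_lt]
      constructor <;> omega
    have h6 := Int.eq_zero_of_abs_lt_dvd h2 h5
    apply hkm
    omega)
  omega

variable {O : Type*} [CommRing O] [Algebra ℤ_[p] O] [Module.Finite ℤ_[p] O]
  [Module.Free ℤ_[p] O]

omit [Module.Finite ℤ_[p] O] in
theorem An_zeros (hp3 : 3 ≤ p) {g : ℕ → O} (hg : An p g)
    (hinf : {n | g n = 0}.Infinite) : ∀ n, g n = 0 := by
  let b := Module.Free.chooseBasis ℤ_[p] O
  intro n
  have h1 : ∀ i, b.repr (g n) i = 0 := by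
    intro i
    refine An_zeros_padic hp3 (g := fun n => b.repr (g n) i) ?_ (hinf.mono ?_) n
    · have hfd : ∀ k n, (fwdDiff 1)^[k] (fun n => b.repr (g n) i) n =
          b.repr ((fwdDiff 1)^[k] g n) i := by
        intro k
        induction k with
        | zero => intro n; rfl
        | succ k ih =>
          intro n
          rw [Function.iterate_succ_apply', Function.iterate_succ_apply']
          simp only [fwdDiff]
          rw [ih, ih, map_sub, Finsupp.sub_apply]
      intro k n
      rw [hfd]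
      exact (basis_dvd_iff b k _).mp (hg k n) i
    · intro n hn
      have h2 : g n = 0 := hn
      simp [h2]
  have h3 : b.repr (g n) = 0 := by
    ext i
    exact h1 i
  simpa using h3

end Zeros

end

end Pool.Agent.Helper26.FD
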