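import Mathlib
import Pool.Agent.Helper26.FD.An

/-!
# FD: the dichotomy for orbits which are unramified modulo `p`
-/

set_option autoImplicit false

namespace Pool.Agent.Helper26.FD

open MvPolynomial Pool.Agent.Helper86.DML

noncomputable section

variable {p : ℕ} [hp : Fact p.Prime] {n : ℕ} {O : Type*} [CommRing O] [Algebra ℤ_[p] O]
  [Module.Finite ℤ_[p] O] [Module.Free ℤ_[p] O]

omit hp [Algebra ℤ_[p] O] [Module.Finite ℤ_[p] O] [Module.Free ℤ_[p] O] in
theorem seq_iter {Φ : Fin n → MvPolynomial (Fin n) O} {x : ℕ → Fin n → O}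
    (hx : ∀ k, x (k + 1) = pmap Φ (x k)) (i k : ℕ) : (pmap Φ)^[k] (x i) = x (i + k) := by
  induction k with
  | zero => rfl
  | succ k ih => rw [Function.iterate_succ_apply', ih, ← hx]; rfl

theorem dichotomy (hp3 : 3 ≤ p) (Φ : Fin n → MvPolynomial (Fin n) O) (x : ℕ → Fin n → O)
    (hx : ∀ k, x (k + 1) = pmap Φ (x k))
    (hdet : ∀ i ℓ, 1 ≤ ℓ → (∀ j, (p : O) ∣ x (i + ℓ) j - x i j) →
      IsUnit (Matrix.of fun a b => eval (x i) (pderiv b (Φ a))).det) :
    ∃ n₀ Q, 1 ≤ Q ∧ ∀ (O' : Type) [CommRing O'] [Algebra ℤ_[p] O'] [Module.Finite ℤ_[p] O']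
      [Module.Free ℤ_[p] O'] (ρ : O →+* O') (G : MvPolynomial (Fin n) O') (r : ℕ),
      {k | eval (fun i => ρ (x (n₀ + r + Q * k) i)) G = 0}.Finite ∨
        ∀ k, eval (fun i => ρ (x (n₀ + r + Q * k) i)) G = 0 := by
  classical
  have hfinq := finite_quotient (p := p) (O := O)
  -- preperiodicity modulo `p`
  obtain ⟨n₀, ℓ, hℓ, hper⟩ : ∃ n₀ ℓ, 1 ≤ ℓ ∧ ∀ i, (p : O) ∣ x (n₀ + ℓ) i - x n₀ i := by
    obtain ⟨i, j, hij, h⟩ := Finite.exists_ne_map_eq_of_infinite
      (fun (k : ℕ) => (fun i => Ideal.Quotient.mk (Ideal.span {(p : O)}) (x k i)))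
    wlog hlt : i < j generalizing i j
    · exact this j i hij.symm h.symm (by omega)
    obtain ⟨d, rfl⟩ := Nat.exists_eq_add_of_lt hlt
    refine ⟨i, d + 1, by omega, fun k => ?_⟩
    have h1 := congrFun h k
    rw [eq_comm, Ideal.Quotient.eq, Ideal.mem_span_singleton] at h1
    exact h1
  have hper1 : ∀ m i, (p : O) ∣ x (n₀ + m + ℓ) i - x (n₀ + m) i := by
    intro m
    induction m with
    | zero => exact hper
    | succ m ih =>
      intro i
      have h1 := eval_congr_mod ih (Φ i)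
      have h2 : x (n₀ + (m + 1) + ℓ) i = eval (x (n₀ + m + ℓ)) (Φ i) := by
        have := congrFun (hx (n₀ + m + ℓ)) i
        have h3 : n₀ + (m + 1) + ℓ = n₀ + m + ℓ + 1 := by ring
        rw [h3, this]
        rfl
      have h4 : x (n₀ + (m + 1)) i = eval (x (n₀ + m)) (Φ i) := congrFun (hx (n₀ + m)) i
      rw [h2, h4]
      exact h1
  have hper2 : ∀ j k i, (p : O) ∣ x (n₀ + j + ℓ * k) i - x (n₀ + j) i := by
    intro j k
    induction k with
    | zero => intro i; simp
    | succ k ih =>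
      intro i
      have h1 := dvd_add (hper1 (j + ℓ * k) i) (ih i)
      have h2 : n₀ + (j + ℓ * k) + ℓ = n₀ + j + ℓ * (k + 1) := by ring
      have h3 : n₀ + (j + ℓ * k) = n₀ + j + ℓ * k := by ring
      rw [h2, h3] at h1
      simpa using h1
  have hint : ∀ j, ∃ M, 1 ≤ M ∧ ∃ u : Fin n → MvPolynomial (Fin n) O, ∀ i,
      zoom (x (n₀ + j)) (p : O) (((bind₁ Φ) ^ (ℓ * M)) (X i)) =
        C (x (n₀ + j) i) + C (p : O) * (X i + C (p : O) * u i) := by
    intro j
    exact exists_interp (p := p) Φ (fun k => x (n₀ + j + k)) (fun k => hx (n₀ + j + k))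
      (ℓ := ℓ) (fun i => hper1 j i) (fun k => hdet (n₀ + j + k) ℓ hℓ (fun i => by
        have := hper1 (j + k) i
        have h3 : n₀ + (j + k) = n₀ + j + k := by ring
        rwa [h3] at this))
  choose M hM u hu using hint
  refine ⟨n₀, ℓ * ∏ j ∈ Finset.range ℓ, M j, Nat.mul_pos hℓ (Finset.prod_pos fun j _ => hM j), ?_⟩
  intro O' _ _ _ _ ρ G r
  set j := r % ℓ with hj
  have hjℓ : j < ℓ := Nat.mod_lt _ hℓ
  obtain ⟨m, hm⟩ : M j ∣ ∏ j ∈ Finset.range ℓ, M j :=
    Finset.dvd_prod_of_mem M (Finset.mem_range.2 hjℓ)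
  have hm1 : 1 ≤ m := by
    by_contra hcon
    have h0 : m = 0 := by omega
    rw [h0, mul_zero] at hm
    exact absurd hm (Finset.prod_pos fun j _ => hM j).ne'
  have hr : n₀ + r = n₀ + j + ℓ * (r / ℓ) := by
    have := Nat.mod_add_div r ℓ
    omega
  have hy : ∀ i, ∃ y, x (n₀ + r) i = x (n₀ + j) i + (p : O) * y := by
    intro i
    obtain ⟨y, hy⟩ := hper2 j (r / ℓ) i
    rw [← hr] at hy
    exact ⟨y, by rw [← hy]; ring⟩
  choose y hy using hy
  have hAn := interp_An ρ (hu j) (fun i => ρ (y i)) G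
  have hseq : ∀ k, (pmap (fun i => map ρ (Φ i)))^[ℓ * M j * k]
      (fun i => ρ (x (n₀ + j) i) + (p : O') * ρ (y i)) =
        fun i => ρ (x (n₀ + r + ℓ * M j * k) i) := by
    intro k
    have h1 : (fun i => ρ (x (n₀ + j) i) + (p : O') * ρ (y i)) = fun i => ρ (x (n₀ + r) i) := by
      funext i
      rw [hy, map_add, map_mul, map_natCast]
    have h2 : ∀ (k : ℕ) (z : Fin n → O), (pmap (fun i => map ρ (Φ i)))^[k] (fun i => ρ (z i)) =
        fun i => ρ ((pmap Φ)^[k] z i) := by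
      intro k
      induction k with
      | zero => intro z; rfl
      | succ k ih =>
        intro z
        rw [Function.iterate_succ_apply, Function.iterate_succ_apply, ← ih]
        congr 1
        funext i
        rw [pmap, pmap, eval_map, eval₂_comp]
        rfl
    rw [h1, h2, seq_iter hx]
  simp only [hseq] at hAn
  by_cases hinf : {k | eval (fun i => ρ (x (n₀ + r + ℓ * M j * k) i)) G = 0}.Infinite
  · right
    intro k
    have h3 := An_zeros hp3 hAn hinf (m * k)
    have h4 : n₀ + r + ℓ * (∏ j ∈ Finset.range ℓ, M j) * k = n₀ + r + ℓ * M j * (m * k) := by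
      rw [hm]
      ring
    rw [h4]
    exact h3
  · left
    rw [Set.not_infinite] at hinf
    refine (hinf.preimage (f := fun k => m * k) ?_).subset ?_
    · intro a _ b _ hab
      exact Nat.eq_of_mul_eq_mul_left hm1 hab
    · intro k hk
      have h4 : n₀ + r + ℓ * (∏ j ∈ Finset.range ℓ, M j) * k = n₀ + r + ℓ * M j * (m * k) := by
        rw [hm]
        ring
      simp only [Set.mem_ofPred_eq, Set.mem_preimage, h4] at hk ⊢
      exact hk

end

end Pool.Agent.Helper26.FD
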