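import Mathlib
import Pool.Agent.Helper26.FD.Defs
import Pool.Agent.Helper26.FD.Dich
import Pool.Agent.Helper86.DML.LocalField

/-!
# FD: orbits over the algebraic closure of `ℚ_p`
-/

set_option autoImplicit false

namespace Pool.Agent.Helper26.FD

open MvPolynomial Pool.Agent.Helper86.DML

noncomputable section

variable {p : ℕ} [hp : Fact p.Prime] {n : ℕ}

theorem adjoin_finite {A : Set (PadicAlgCl p)} (hA : A.Finite) (h : ∀ a ∈ A, IsIntegral ℤ_[p] a) :
    Module.Finite ℤ_[p] (Algebra.adjoin ℤ_[p] A) ∧ Module.Free ℤ_[p] (Algebra.adjoin ℤ_[p] A) := by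
  have hfin : Module.Finite ℤ_[p] (Algebra.adjoin ℤ_[p] A) :=
    Module.Finite.iff_fg.mpr (fg_adjoin_of_finite hA h)
  have hinj3 : Function.Injective (algebraMap ℤ_[p] (PadicAlgCl p)) := by
    rw [IsScalarTower.algebraMap_eq ℤ_[p] ℚ_[p] (PadicAlgCl p)]
    exact (algebraMap ℚ_[p] (PadicAlgCl p)).injective.comp
      (IsFractionRing.injective ℤ_[p] ℚ_[p])
  have htf : Module.IsTorsionFree ℤ_[p] (Algebra.adjoin ℤ_[p] A) := by
    have : FaithfulSMul ℤ_[p] (Algebra.adjoin ℤ_[p] A) := by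
      rw [faithfulSMul_iff_algebraMap_injective]
      intro a b hab
      exact hinj3 (congrArg Subtype.val hab)
    infer_instance
  exact ⟨hfin, inferInstance⟩

theorem p_mem_maximal {O : Type*} [CommRing O] [Algebra ℤ_[p] O] [Module.Finite ℤ_[p] O]
    (m : Ideal O) [hm : m.IsMaximal] : (p : O) ∈ m := by
  have h1 := Ideal.isMaximal_comap_of_isIntegral_of_isMaximal (R := ℤ_[p]) m
  have h2 := IsLocalRing.eq_maximalIdeal h1
  have h3 : (p : ℤ_[p]) ∈ m.comap (algebraMap ℤ_[p] O) := by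
    rw [h2, PadicInt.maximalIdeal_eq_span_p]
    exact Ideal.mem_span_singleton_self _
  simpa using h3

theorem fmap_comp {R S : Type*} [CommRing R] [CommRing S] (π : R →+* S)
    (F : Fin n → MvPolynomial (Fin n) ℤ) (x : Fin n → R) :
    fmap S F (fun i => π (x i)) = fun i => π (fmap R F x i) := by
  funext i
  rw [fmap, fmap, aeval_def, aeval_def, eval₂_comp_left]
  have h : π.comp (algebraMap ℤ R) = algebraMap ℤ S := RingHom.ext_int _ _
  rw [h]
  rfl

theorem fmap_comp_iterate {R S : Type*} [CommRing R] [CommRing S] (π : R →+* S)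
    (F : Fin n → MvPolynomial (Fin n) ℤ) (k : ℕ) (x : Fin n → R) :
    (fmap S F)^[k] (fun i => π (x i)) = fun i => π ((fmap R F)^[k] x i) := by
  induction k generalizing x with
  | zero => rfl
  | succ k ih => rw [Function.iterate_succ_apply, Function.iterate_succ_apply, fmap_comp, ih]

omit hp in
theorem fmap_ne_zero {F : Fin n → MvPolynomial (Fin n) ℤ} (hG : GoodAt p F) {k : Type} [Field k]
    [CharP k p] {x : Fin n → k} (hx : x ≠ 0) (m : ℕ) : (fmap k F)^[m] x ≠ 0 := by
  induction m with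
  | zero => exact hx
  | succ m ih =>
    rw [Function.iterate_succ_apply']
    exact (hG k _ ih).1

theorem main_padic (hp3 : 3 ≤ p) (F : Fin n → MvPolynomial (Fin n) ℤ) (hG : GoodAt p F)
    (β : Fin n → PadicAlgCl p) (hβ : ∀ i, ‖β i‖ ≤ 1) (i₀ : Fin n) (hβ1 : β i₀ = 1) :
    ∃ n₀ Q, 1 ≤ Q ∧ ∀ (G : MvPolynomial (Fin n) (PadicAlgCl p)) (r : ℕ),
      {k | eval ((fmap (PadicAlgCl p) F)^[n₀ + r + Q * k] β) G = 0}.Finite ∨
        ∀ k, eval ((fmap (PadicAlgCl p) F)^[n₀ + r + Q * k] β) G = 0 := by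
  classical
  let O : Subalgebra ℤ_[p] (PadicAlgCl p) := Algebra.adjoin ℤ_[p] (Set.range β)
  obtain ⟨hfin, hfree⟩ := adjoin_finite (p := p) (Set.finite_range β) (by
    rintro _ ⟨i, rfl⟩
    exact isIntegral_of_norm_le_one _ (hβ i))
  let x₀ : Fin n → O := fun i => ⟨β i, Algebra.subset_adjoin ⟨i, rfl⟩⟩
  let x : ℕ → Fin n → O := fun k => (fmap O F)^[k] x₀
  let Φ : Fin n → MvPolynomial (Fin n) O := fun i => map (Int.castRingHom O) (F i)
  have hpm : ∀ y : Fin n → O, pmap Φ y = fmap O F y := by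
    intro y
    funext i
    rw [pmap, fmap, eval_map, aeval_def]
    rfl
  have hx : ∀ k, x (k + 1) = pmap Φ (x k) := by
    intro k
    rw [hpm]
    exact Function.iterate_succ_apply' _ _ _
  have hdet : ∀ i ℓ, 1 ≤ ℓ → (∀ j, (p : O) ∣ x (i + ℓ) j - x i j) →
      IsUnit (Matrix.of fun a b => eval (x i) (pderiv b (Φ a))).det := by
    intro i ℓ hℓ hper
    by_contra hnu
    obtain ⟨m, hm, hmem⟩ := exists_max_ideal_of_mem_nonunits hnu
    let : Field (O ⧸ m) := Ideal.Quotient.field m
    have hpk : ((p : ℕ) : O ⧸ m) = 0 := by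
      have h1 : Ideal.Quotient.mk m (p : O) = 0 :=
        Ideal.Quotient.eq_zero_iff_mem.2 (p_mem_maximal m)
      rw [map_natCast] at h1
      exact h1
    have hchar : CharP (O ⧸ m) p := ringChar.of_eq (CharP.ringChar_of_prime_eq_zero hp.out hpk)
    let π := Ideal.Quotient.mk m
    have hxk : ∀ k, (fmap (O ⧸ m) F)^[k] (fun i => π (x₀ i)) = fun i => π (x k i) := fun k =>
      fmap_comp_iterate π F k x₀
    have hne : (fun i => π (x₀ i)) ≠ 0 := by
      intro h
      have h2 := congrFun h i₀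
      have h3 : x₀ i₀ = 1 := Subtype.ext hβ1
      rw [h3, map_one] at h2
      exact one_ne_zero h2
    have hper' : (fmap (O ⧸ m) F)^[ℓ] (fun j => π (x i j)) = fun j => π (x i j) := by
      have h4 := hxk (i + ℓ)
      rw [add_comm, Function.iterate_add_apply, hxk] at h4
      rw [h4]
      funext j
      have h5 : x (ℓ + i) j - x i j ∈ m := by
        obtain ⟨w, hw⟩ := hper j
        rw [add_comm ℓ i, hw]
        exact m.mul_mem_right _ (p_mem_maximal m)
      exact (Ideal.Quotient.eq).2 h5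
    have hgood := (hG (O ⧸ m) (fun j => π (x i j)) (by
      rw [← hxk]
      exact fmap_ne_zero hG hne i)).2 ℓ hℓ hper'
    apply hgood
    have h6 : (Matrix.of fun a b => aeval (fun j => π (x i j)) (pderiv b (F a))) =
        π.mapMatrix (Matrix.of fun a b => eval (x i) (pderiv b (Φ a))) := by
      ext a b
      rw [RingHom.mapMatrix_apply, Matrix.map_apply, Matrix.of_apply, Matrix.of_apply]
      simp only [Φ]
      rw [pderiv_map, eval_map, aeval_def, eval₂_comp_left]
      have h : π.comp (Int.castRingHom O) = algebraMap ℤ (O ⧸ m) := RingHom.ext_int _ _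
      rw [h]
      rfl
    have h7 := congrArg Matrix.det h6
    rw [← RingHom.map_det] at h7
    exact h7.trans (Ideal.Quotient.eq_zero_iff_mem.2 hmem)
  obtain ⟨n₀, Q, hQ, hdich⟩ := dichotomy hp3 Φ x hx hdet
  refine ⟨n₀, Q, hQ, fun G r => ?_⟩
  by_cases hG0 : G = 0
  · right
    intro k
    rw [hG0, map_zero]
  obtain ⟨s₀, hs₀, hmax⟩ := Finset.exists_max_image G.support (fun s => ‖coeff s G‖)
    (support_nonempty.2 hG0)
  have hc0 : coeff s₀ G ≠ 0 := mem_support_iff.1 hs₀
  set c := (coeff s₀ G)⁻¹ with hc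
  have hcne : c ≠ 0 := inv_ne_zero hc0
  have hcoef : ∀ s, ‖coeff s (C c * G)‖ ≤ 1 := by
    intro s
    rw [coeff_C_mul, norm_mul, hc, norm_inv]
    have hpos : 0 < ‖coeff s₀ G‖ := norm_pos_iff.2 hc0
    rw [inv_mul_le_iff₀ hpos, mul_one]
    by_cases hs : s ∈ G.support
    · exact hmax s hs
    · rw [notMem_support_iff.1 hs, norm_zero]
      exact hpos.le
  let A' : Set (PadicAlgCl p) := Set.range β ∪ ((fun s => coeff s (C c * G)) '' ((C c * G).support : Set _))
  have hA'fin : A'.Finite := (Set.finite_range β).union ((C c * G).support.finite_toSet.image _)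
  obtain ⟨hfin', hfree'⟩ := adjoin_finite (p := p) hA'fin (by
    rintro a (⟨i, rfl⟩ | ⟨s, -, rfl⟩)
    · exact isIntegral_of_norm_le_one _ (hβ i)
    · exact isIntegral_of_norm_le_one _ (hcoef s))
  let O' : Subalgebra ℤ_[p] (PadicAlgCl p) := Algebra.adjoin ℤ_[p] A'
  have hOO' : O ≤ O' := Algebra.adjoin_mono Set.subset_union_left
  let ρ : O →+* O' := (Subalgebra.inclusion hOO').toRingHom
  have hval : ∀ o : O, ((ρ o : O') : PadicAlgCl p) = (o : PadicAlgCl p) := fun o => rfl
  obtain ⟨G', hG'⟩ : ∃ G' : MvPolynomial (Fin n) O', map (O'.val : O' →+* PadicAlgCl p) G' =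
      C c * G := by
    have h7 : (C c * G) ∈ Set.range (MvPolynomial.map (σ := Fin n)
        (O'.val : O' →+* PadicAlgCl p)) := by
      rw [mem_range_map_iff_coeffs_subset]
      intro a ha
      rw [Finset.mem_coe, mem_coeffs_iff] at ha
      obtain ⟨s, hs, rfl⟩ := ha
      exact ⟨⟨_, Algebra.subset_adjoin (Or.inr ⟨s, hs, rfl⟩)⟩, rfl⟩
    exact h7
  have hiff : ∀ m, eval ((fmap (PadicAlgCl p) F)^[m] β) G = 0 ↔
      eval (fun i => ρ (x m i)) G' = 0 := by
    intro m
    have h8 : (fmap (PadicAlgCl p) F)^[m] β = fun i => (O'.val : O' →+* PadicAlgCl p)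
        (ρ (x m i)) := by
      have h9 := fmap_comp_iterate (O.val : O →+* PadicAlgCl p) F m x₀
      exact h9
    have h10 : (O'.val : O' →+* PadicAlgCl p) (eval (fun i => ρ (x m i)) G') =
        c * eval ((fmap (PadicAlgCl p) F)^[m] β) G := by
      have h11 : c * eval ((fmap (PadicAlgCl p) F)^[m] β) G =
          eval ((fmap (PadicAlgCl p) F)^[m] β) (C c * G) := by
        rw [map_mul, eval_C]
      rw [h11, ← hG', eval_map, h8, eval₂_comp]
      rfl
    constructor
    · intro h0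
      rw [h0, mul_zero] at h10
      exact (map_eq_zero_iff _ Subtype.val_injective).1 h10
    · intro h0
      rw [h0, map_zero] at h10
      exact (mul_eq_zero.1 h10.symm).resolve_left hcne
  have hfin2 := hdich O' ρ G' r
  simp only [hiff]
  exact hfin2

end

end Pool.Agent.Helper26.FD
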