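import Mathlib
import Pool.Agent.Helper26.FD.Pad

/-!
# FD: complex points
-/

set_option autoImplicit false

namespace Pool.Agent.Helper26.FD

open MvPolynomial Pool.Agent.Helper86.DML Cardinal

noncomputable section

variable {p : ℕ} [hp : Fact p.Prime] {n : ℕ}

theorem mk_padic_le : #ℚ_[p] ≤ 𝔠 := by
  have h1 : #ℚ_[p] ≤ #(CauSeq ℚ (padicNorm p)) := mk_quotient_le
  have h2 : #(CauSeq ℚ (padicNorm p)) ≤ #(ℕ → ℚ) := mk_subtype_le _
  have h3 : #(ℕ → ℚ) = 𝔠 := by simp
  exact h1.trans (h2.trans h3.le)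

theorem mk_padicAlgCl : #(PadicAlgCl p) = 𝔠 := by
  apply le_antisymm
  · have h := Algebra.IsAlgebraic.cardinalMk_le_max ℚ_[p] (PadicAlgCl p)
    exact h.trans (max_le mk_padic_le aleph0_le_continuum)
  · have h1 : 𝔠 ≤ #ℚ_[p] := continuum_le_cardinal_of_nontriviallyNormedField ℚ_[p]
    exact h1.trans (mk_le_of_injective (algebraMap ℚ_[p] (PadicAlgCl p)).injective)

theorem exists_iso (p : ℕ) [Fact p.Prime] : Nonempty (ℂ ≃+* PadicAlgCl p) := by
  apply IsAlgClosed.ringEquiv_of_equiv_of_charZero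
  · rw [mk_complex]
    exact aleph0_lt_continuum
  · rw [← Cardinal.eq, mk_complex, mk_padicAlgCl]

/-- scaling -/
theorem aeval_smul_hom {R : Type*} [CommRing R] {d : ℕ} {P : MvPolynomial (Fin n) ℤ}
    (hP : P.IsHomogeneous d) (t : R) (x : Fin n → R) :
    aeval (fun i => t * x i) P = t ^ d * aeval x P := by
  rw [aeval_def, aeval_def, eval₂_eq, eval₂_eq, Finset.mul_sum]
  refine Finset.sum_congr rfl fun s hs => ?_
  have h1 : s.degree = d := by
    by_contra hne
    exact (mem_support_iff.1 hs) (hP.coeff_eq_zero hne)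
  have h2 : ∏ i ∈ s.support, (t * x i) ^ s i = t ^ d * ∏ i ∈ s.support, x i ^ s i := by
    simp only [mul_pow, Finset.prod_mul_distrib]
    rw [Finset.prod_pow_eq_pow_sum, ← h1]
    rfl
  rw [h2]
  ring

theorem fmap_smul {R : Type*} [CommRing R] {d : ℕ} {F : Fin n → MvPolynomial (Fin n) ℤ}
    (hF : ∀ i, (F i).IsHomogeneous d) (t : R) (x : Fin n → R) :
    fmap R F (fun i => t * x i) = fun i => t ^ d * fmap R F x i :=
  funext fun i => aeval_smul_hom (hF i) t x

theorem fmap_smul_iterate {R : Type*} [CommRing R] {d : ℕ} {F : Fin n → MvPolynomial (Fin n) ℤ}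
    (hF : ∀ i, (F i).IsHomogeneous d) (m : ℕ) (t : R) (x : Fin n → R) :
    (fmap R F)^[m] (fun i => t * x i) = fun i => t ^ d ^ m * (fmap R F)^[m] x i := by
  induction m generalizing t x with
  | zero => simp
  | succ m ih =>
    rw [Function.iterate_succ_apply, fmap_smul hF, ih, Function.iterate_succ_apply]
    funext i
    rw [← pow_mul, pow_succ']

theorem eval_smul_hom' {R : Type*} [CommRing R] {e : ℕ} {G : MvPolynomial (Fin n) R}
    (hG : G.IsHomogeneous e) (t : R) (x : Fin n → R) :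
    eval (fun i => t * x i) G = t ^ e * eval x G := by
  rw [eval_eq, eval_eq, Finset.mul_sum]
  refine Finset.sum_congr rfl fun s hs => ?_
  have h1 : s.degree = e := by
    by_contra hne
    exact (mem_support_iff.1 hs) (hG.coeff_eq_zero hne)
  have h2 : ∏ i ∈ s.support, (t * x i) ^ s i = t ^ e * ∏ i ∈ s.support, x i ^ s i := by
    simp only [mul_pow, Finset.prod_mul_distrib]
    rw [Finset.prod_pow_eq_pow_sum, ← h1]
    rfl
  rw [h2]
  ring

/-- a vector with one coordinate equal to one, the others of norm at most one -/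
theorem exists_primitive_vec {y : Fin n → PadicAlgCl p} (hy : y ≠ 0) :
    ∃ (i₀ : Fin n) (t : PadicAlgCl p), t ≠ 0 ∧ (∀ i, ‖t * y i‖ ≤ 1) ∧ t * y i₀ = 1 := by
  have hne : (Finset.univ : Finset (Fin n)).Nonempty := by
    obtain ⟨i, -⟩ := Function.ne_iff.1 hy
    exact ⟨i, Finset.mem_univ i⟩
  obtain ⟨i₀, -, hmax⟩ := Finset.exists_max_image Finset.univ (fun i => ‖y i‖) hne
  have h0 : y i₀ ≠ 0 := by
    intro h
    apply hy
    funext i
    have := hmax i (Finset.mem_univ i)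
    rw [h, norm_zero] at this
    exact norm_le_zero_iff.1 this
  refine ⟨i₀, (y i₀)⁻¹, inv_ne_zero h0, fun i => ?_, inv_mul_cancel₀ h0⟩
  rw [norm_mul, norm_inv, inv_mul_le_iff₀ (norm_pos_iff.2 h0), mul_one]
  exact hmax i (Finset.mem_univ i)

theorem etale_dml (hp3 : 3 ≤ p) {d : ℕ} (F : Fin n → MvPolynomial (Fin n) ℤ)
    (hF : ∀ i, (F i).IsHomogeneous d) (hG : GoodAt p F) (α : Fin n → ℂ) (hα : α ≠ 0) :
    ∃ n₀ Q, 1 ≤ Q ∧ ∀ (e : ℕ) (G : MvPolynomial (Fin n) ℂ), G.IsHomogeneous e → ∀ r,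
      {k | eval ((fmap ℂ F)^[n₀ + r + Q * k] α) G = 0}.Finite ∨
        ∀ k, eval ((fmap ℂ F)^[n₀ + r + Q * k] α) G = 0 := by
  obtain ⟨σ⟩ := exists_iso p
  have hσ0 : (fun i => σ (α i)) ≠ 0 := by
    intro h
    apply hα
    funext i
    exact (map_eq_zero σ).1 (congrFun h i)
  obtain ⟨i₀, t, ht, hnorm, hone⟩ := exists_primitive_vec hσ0
  obtain ⟨n₀, Q, hQ, h⟩ := main_padic hp3 F hG (fun i => t * σ (α i)) hnorm i₀ hone
  refine ⟨n₀, Q, hQ, fun e G hGe r => ?_⟩
  have hiff : ∀ m, eval ((fmap ℂ F)^[m] α) G = 0 ↔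
      eval ((fmap (PadicAlgCl p) F)^[m] (fun i => t * σ (α i))) (map (σ : ℂ →+* PadicAlgCl p) G)
        = 0 := by
    intro m
    rw [fmap_smul_iterate hF, eval_smul_hom' (hGe.map _)]
    have h1 := fmap_comp_iterate (σ : ℂ →+* PadicAlgCl p) F m α
    have h2 : eval ((fmap (PadicAlgCl p) F)^[m] fun i => σ (α i))
        (map (σ : ℂ →+* PadicAlgCl p) G) = σ (eval ((fmap ℂ F)^[m] α) G) := by
      have h3 : (fmap (PadicAlgCl p) F)^[m] (fun i => σ (α i)) =
          fun i => (σ : ℂ →+* PadicAlgCl p) ((fmap ℂ F)^[m] α i) := h1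
      rw [h3, eval_map]
      have h4 := eval₂_comp (σ : ℂ →+* PadicAlgCl p) ((fmap ℂ F)^[m] α) G
      exact h4.symm
    rw [h2]
    constructor
    · intro h6
      rw [h6, map_zero, mul_zero]
    · intro h6
      exact (map_eq_zero_iff σ σ.injective).1
        ((mul_eq_zero.1 h6).resolve_left (pow_ne_zero _ (pow_ne_zero _ ht)))
  simp only [hiff]
  exact h _ r

theorem isEndo {d : ℕ} (F : Fin n → MvPolynomial (Fin n) ℤ)
    (hF : ∀ i, (F i).IsHomogeneous d) (hG : GoodAt p F) (z : Fin n → ℂ) (hz : fmap ℂ F z = 0) :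
    z = 0 := by
  by_contra hne
  obtain ⟨σ⟩ := exists_iso p
  have hσ0 : (fun i => σ (z i)) ≠ 0 := by
    intro h
    apply hne
    funext i
    exact (map_eq_zero σ).1 (congrFun h i)
  obtain ⟨i₀, t, ht, hnorm, hone⟩ := exists_primitive_vec hσ0
  let β : Fin n → PadicAlgCl p := fun i => t * σ (z i)
  obtain ⟨hfin, hfree⟩ := adjoin_finite (p := p) (Set.finite_range β) (by
    rintro _ ⟨i, rfl⟩
    exact isIntegral_of_norm_le_one _ (hnorm i))
  let O : Subalgebra ℤ_[p] (PadicAlgCl p) := Algebra.adjoin ℤ_[p] (Set.range β)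
  let x₀ : Fin n → O := fun i => ⟨β i, Algebra.subset_adjoin ⟨i, rfl⟩⟩
  have h0 : fmap O F x₀ = 0 := by
    have h1 : fmap (PadicAlgCl p) F β = 0 := by
      have h2 := fmap_comp (σ : ℂ →+* PadicAlgCl p) F z
      have h3 : fmap (PadicAlgCl p) F β = fun i => t ^ d *
          fmap (PadicAlgCl p) F (fun i => σ (z i)) i := fmap_smul hF t _
      have h4 : fmap (PadicAlgCl p) F (fun i => σ (z i)) = fun i => σ (fmap ℂ F z i) := h2
      rw [h3, h4, hz]
      funext i
      simp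
    have h5 := fmap_comp (O.val : O →+* PadicAlgCl p) F x₀
    have h6 : fmap (PadicAlgCl p) F β = fun i => (O.val : O →+* PadicAlgCl p) (fmap O F x₀ i) := h5
    rw [h1] at h6
    funext i
    have h7 := congrFun h6 i
    exact Subtype.ext h7.symm
  obtain ⟨m, hm⟩ := Ideal.exists_maximal O
  let : Field (O ⧸ m) := Ideal.Quotient.field m
  have hpk : ((p : ℕ) : O ⧸ m) = 0 := by
    have h1 : Ideal.Quotient.mk m (p : O) = 0 :=
      Ideal.Quotient.eq_zero_iff_mem.2 (p_mem_maximal m)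
    rw [map_natCast] at h1
    exact h1
  have hchar : CharP (O ⧸ m) p := ringChar.of_eq (CharP.ringChar_of_prime_eq_zero hp.out hpk)
  have hne' : (fun i => Ideal.Quotient.mk m (x₀ i)) ≠ 0 := by
    intro h
    have h2 := congrFun h i₀
    have h3 : x₀ i₀ = 1 := Subtype.ext hone
    rw [h3, map_one] at h2
    exact one_ne_zero h2
  apply (hG (O ⧸ m) _ hne').1
  have h8 := fmap_comp (Ideal.Quotient.mk m) F x₀
  rw [h0] at h8
  refine h8.trans ?_
  funext i
  exact map_zero _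

end

end Pool.Agent.Helper26.FD
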