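import Mathlib
import Pool.Agent.Helper26.FD.Sym3

/-!
# FD: integral forms without periodic critical points in characteristic `p`
-/

set_option autoImplicit false

namespace Pool.Agent.Helper26.FD

open Polynomial Function

noncomputable section

theorem exists_primitive {p d : ℕ} [hp : Fact p.Prime] (h : p ≡ 1 [MOD d]) :
    ∃ w : ZMod p, IsPrimitiveRoot w d := by
  obtain ⟨u, hu⟩ := IsCyclic.exists_ofOrder_eq_natCard (α := (ZMod p)ˣ)
  rw [Nat.card_eq_fintype_card, ZMod.card_units] at hu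
  have hdvd : d ∣ p - 1 := (Nat.modEq_iff_dvd' hp.out.one_le).1 h.symm
  obtain ⟨k, hk⟩ := hdvd
  have hp1 : 0 < p - 1 := by
    have := hp.out.two_le
    omega
  have hk0 : k ≠ 0 := by
    rintro rfl
    rw [mul_zero] at hk
    omega
  refine ⟨((u ^ k : (ZMod p)ˣ) : ZMod p), ?_⟩
  rw [IsPrimitiveRoot.coe_units_iff]
  have h1 : IsPrimitiveRoot u (p - 1) := hu ▸ IsPrimitiveRoot.orderOf u
  exact h1.pow hp1 (by rw [hk, mul_comm])

theorem fmap_eq {n p : ℕ} [Fact p.Prime] (k : Type*) [Field k] [CharP k p]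
    (F : MvPolynomial (Fin n) ℤ) (x : Fin n → k) :
    MvPolynomial.aeval x F = MvPolynomial.eval₂Hom (ZMod.castHom (dvd_refl p) k) x
      (MvPolynomial.map (Int.castRingHom (ZMod p)) F) := by
  rw [MvPolynomial.eval₂Hom_map_hom, RingHom.ext_int ((ZMod.castHom (dvd_refl p) k).comp
    (Int.castRingHom (ZMod p))) (algebraMap ℤ k)]
  rfl

theorem exists_lift {N d p : ℕ} [Fact p.Prime] (P : MvPolynomial (Fin N) (ZMod p))
    (hP : P.IsHomogeneous d) : ∃ F : MvPolynomial (Fin N) ℤ, F.IsHomogeneous d ∧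
      MvPolynomial.map (Int.castRingHom (ZMod p)) F = P := by
  obtain ⟨G, hG⟩ := MvPolynomial.map_surjective (Int.castRingHom (ZMod p))
    (ZMod.ringHom_surjective _) P
  refine ⟨MvPolynomial.homogeneousComponent d G,
    MvPolynomial.homogeneousComponent_isHomogeneous d G, ?_⟩
  ext s
  rw [MvPolynomial.coeff_map, MvPolynomial.coeff_homogeneousComponent]
  by_cases hs : s.degree = d
  · rw [if_pos hs, ← MvPolynomial.coeff_map, hG]
  · rw [if_neg hs, map_zero, hP.coeff_eq_zero hs]

theorem exists_sym (N d m : ℕ) (hd : 2 ≤ d) : ∃ p : ℕ, p.Prime ∧ 3 ≤ p ∧ m < p ∧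
    ∃ F : Fin (N + 1) → MvPolynomial (Fin (N + 1)) ℤ, (∀ i, (F i).IsHomogeneous d) ∧
      GoodAt p F := by
  obtain ⟨p, hp, hpm, hpd⟩ := Nat.exists_prime_gt_modEq_one (m + 2) (k := d) (by omega)
  have := Fact.mk hp
  have hd0 : 0 < d := by omega
  obtain ⟨w, hw⟩ := exists_primitive hpd
  have hw1 : w ≠ 1 := by
    rintro rfl
    have := hw.eq_orderOf
    rw [orderOf_one] at this
    omega
  have hc : (1 - w) ≠ 0 := fun h => hw1 (sub_eq_zero.1 h).symm
  have h1 : (1 - (1 - w)) ^ d = 1 := by rw [sub_sub_cancel, hw.pow_eq_one]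
  choose F hF hFmap using fun i => exists_lift (Fb N d (1 - w) i) (Fb_hom hw i)
  refine ⟨p, hp, by omega, by omega, F, hF, ?_⟩
  intro k _ _ x hx
  have hdk : ¬ p ∣ d := by
    intro hdvd
    have h2 : d ∣ p - 1 := (Nat.modEq_iff_dvd' hp.one_le).1 hpd.symm
    have h3 := Nat.le_of_dvd hd0 hdvd
    have h4 := Nat.le_of_dvd (by have := hp.two_le; omega) h2
    have := hp.two_le
    omega
  let φ : ZMod p →+* k := ZMod.castHom (dvd_refl p) k
  have hf : ∀ x : Fin (N + 1) → k, fmap k F x = FK N d (1 - w) φ x := by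
    intro x
    funext i
    rw [fmap, fmap_eq (p := p), hFmap]
    rfl
  refine ⟨by rw [hf]; exact FK_ne_zero hw hd0 hc hx, ?_⟩
  intro m' hm' hper hdet
  let K := AlgebraicClosure k
  have hcharK : CharP K p := charP_of_injective_algebraMap (algebraMap k K).injective p
  let j : k →+* K := algebraMap k K
  have hfun : (fmap k F) = FK N d (1 - w) φ := funext hf
  rw [hfun] at hper
  have hj : ∀ x : Fin (N + 1) → k, (fun i => j (FK N d (1 - w) φ x i)) =
      FK N d (1 - w) (j.comp φ) (fun i => j (x i)) := by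
    intro x
    funext i
    exact MvPolynomial.map_eval₂Hom φ x j (Fb N d (1 - w) i)
  have hjit : ∀ n : ℕ, ∀ x : Fin (N + 1) → k,
      (FK N d (1 - w) (j.comp φ))^[n] (fun i => j (x i)) =
        fun i => j (((FK N d (1 - w) φ)^[n] x) i) := by
    intro n
    induction n with
    | zero => intro x; rfl
    | succ n ih =>
      intro x
      rw [iterate_succ_apply, iterate_succ_apply, ← hj, ih]
  have hper' : (FK N d (1 - w) (j.comp φ))^[m'] (fun i => j (x i)) = fun i => j (x i) := by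
    rw [hjit, hper]
  have hx' : (fun i => j (x i)) ≠ 0 := by
    intro h
    apply hx
    funext i
    exact (map_eq_zero j).1 (congrFun h i)
  have hdK : (d : K) ≠ 0 := by
    rw [Ne, CharP.cast_eq_zero_iff K p]
    exact hdk
  apply jac_ne_zero (φ := j.comp φ) hw hd0 hdK hc h1 hx' hm' hper'
  have h5 : (Matrix.of fun i j' => MvPolynomial.eval₂Hom (j.comp φ) (fun i => j (x i))
      (MvPolynomial.pderiv j' (Fb N d (1 - w) i))) = j.mapMatrix (Matrix.of fun i j' =>
        MvPolynomial.aeval x (MvPolynomial.pderiv j' (F i))) := by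
    ext a b
    rw [RingHom.mapMatrix_apply, Matrix.map_apply, Matrix.of_apply, Matrix.of_apply,
      fmap_eq (p := p), ← MvPolynomial.pderiv_map, hFmap]
    exact (MvPolynomial.map_eval₂Hom φ x j _).symm
  rw [h5, ← RingHom.map_det, hdet, map_zero]

end

end Pool.Agent.Helper26.FD
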