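import Mathlib
import Pool.Agent.Helper26.FD.Cpx
import Pool.Agent.Helper26.FD.Cnt
import Pool.Agent.Helper26.FD.Sym4

/-!
# FD: assembly
-/

set_option autoImplicit false

namespace Pool.Agent.Helper26.FD

open MvPolynomial

noncomputable section

/-- `GoodAt p F` depends only on `F` modulo `p` -/
theorem goodAt_congr {n p : ℕ} (hp : p.Prime) {F F' : Fin n → MvPolynomial (Fin n) ℤ}
    (h : ∀ i s, (p : ℤ) ∣ coeff s (F i) - coeff s (F' i)) (hG : GoodAt p F') : GoodAt p F := by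
  have := Fact.mk hp
  have hmap : ∀ i, map (Int.castRingHom (ZMod p)) (F i) = map (Int.castRingHom (ZMod p)) (F' i) := by
    intro i
    ext s
    rw [coeff_map, coeff_map]
    have h1 := (ZMod.intCast_zmod_eq_zero_iff_dvd (coeff s (F i) - coeff s (F' i)) p).2 (h i s)
    rw [Int.cast_sub, sub_eq_zero] at h1
    exact h1
  intro k _ _ x hx
  have hf : fmap k F = fmap k F' := by
    funext y i
    rw [fmap, fmap, fmap_eq (p := p), fmap_eq (p := p), hmap]
  have hJ : ∀ i j, aeval x (pderiv j (F i)) = aeval x (pderiv j (F' i)) := by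
    intro i j
    rw [fmap_eq (p := p), fmap_eq (p := p), ← pderiv_map, hmap, pderiv_map]
  rw [hf]
  simp only [hJ]
  exact hG k x hx

theorem ap_of_dich (R : Set ℕ) {n₀ Q : ℕ} (hQ : 1 ≤ Q)
    (h : ∀ r, {k | n₀ + r + Q * k ∈ R}.Finite ∨ ∀ k, n₀ + r + Q * k ∈ R) :
    ∃ A : Finset (ℕ × ℕ), R = {n | ∃ q ∈ A, ∃ k, n = q.1 + q.2 * k} := by
  classical
  let T : Finset ℕ := (Finset.range Q).filter fun r => ∀ k, n₀ + r + Q * k ∈ R
  let E : Set ℕ := {n ∈ R | n < n₀} ∪ ⋃ r ∈ (Finset.range Q).filter fun r =>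
    {k | n₀ + r + Q * k ∈ R}.Finite, (fun k => n₀ + r + Q * k) '' {k | n₀ + r + Q * k ∈ R}
  have hE : E.Finite := by
    refine ((Set.finite_lt_nat n₀).subset fun n hn => hn.2).union ?_
    refine Set.Finite.biUnion (Finset.finite_toSet _) fun r hr => ?_
    exact Set.Finite.image _ (Finset.mem_filter.1 (Finset.mem_coe.1 hr)).2
  refine ⟨T.image (fun r => (n₀ + r, Q)) ∪ hE.toFinset.image (fun n => (n, 0)), ?_⟩
  ext n
  constructor
  · intro hn
    by_cases hlt : n < n₀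
    · refine ⟨(n, 0), ?_, 0, by simp⟩
      rw [Finset.mem_union]
      right
      rw [Finset.mem_image]
      exact ⟨n, hE.mem_toFinset.2 (Or.inl ⟨hn, hlt⟩), rfl⟩
    · have hr : (n - n₀) % Q < Q := Nat.mod_lt _ hQ
      have hn' : n = n₀ + (n - n₀) % Q + Q * ((n - n₀) / Q) := by
        have := Nat.mod_add_div (n - n₀) Q
        omega
      rcases h ((n - n₀) % Q) with h1 | h1
      · refine ⟨(n, 0), ?_, 0, by simp⟩
        rw [Finset.mem_union]
        right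
        rw [Finset.mem_image]
        refine ⟨n, hE.mem_toFinset.2 (Or.inr ?_), rfl⟩
        refine Set.mem_biUnion (x := (n - n₀) % Q) ?_ ?_
        · exact Finset.mem_coe.2 (Finset.mem_filter.2 ⟨Finset.mem_range.2 hr, h1⟩)
        · refine ⟨(n - n₀) / Q, ?_, hn'.symm⟩
          show n₀ + (n - n₀) % Q + Q * ((n - n₀) / Q) ∈ R
          rw [← hn']
          exact hn
      · refine ⟨(n₀ + (n - n₀) % Q, Q), ?_, (n - n₀) / Q, hn'⟩
        rw [Finset.mem_union]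
        left
        rw [Finset.mem_image]
        exact ⟨_, Finset.mem_filter.2 ⟨Finset.mem_range.2 hr, h1⟩, rfl⟩
  · rintro ⟨q, hq, k, rfl⟩
    rw [Finset.mem_union, Finset.mem_image, Finset.mem_image] at hq
    rcases hq with ⟨r, hr, rfl⟩ | ⟨n, hn, rfl⟩
    · exact (Finset.mem_filter.1 hr).2 k
    · rw [hE.mem_toFinset] at hn
      simp only [zero_mul, add_zero]
      rcases hn with hn | hn
      · exact hn.1
      · simp only [Set.mem_iUnion] at hn
        obtain ⟨r, hr, k', hk', rfl⟩ := hn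
        exact hk'

/-- the dynamical Mordell-Lang conjecture for the endomorphism of projective space given by `F` -/
def FullDML {n : ℕ} (F : Fin n → MvPolynomial (Fin n) ℤ) : Prop :=
  ∀ α : Fin n → ℂ, α ≠ 0 → ∀ V : Set (MvPolynomial (Fin n) ℂ),
    (∀ G ∈ V, ∃ e : ℕ, G.IsHomogeneous e) → ∃ A : Finset (ℕ × ℕ),
      {k : ℕ | ∀ G ∈ V, eval ((fmap ℂ F)^[k] α) G = 0} =
        {k | ∃ q ∈ A, ∃ j, k = q.1 + q.2 * j}

theorem fullDML {p : ℕ} [Fact p.Prime] (hp3 : 3 ≤ p) {n d : ℕ}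
    (F : Fin n → MvPolynomial (Fin n) ℤ) (hF : ∀ i, (F i).IsHomogeneous d) (hG : GoodAt p F) :
    FullDML F := by
  intro α hα V hV
  obtain ⟨n₀, Q, hQ, h⟩ := etale_dml hp3 F hF hG α hα
  refine ap_of_dich _ hQ (n₀ := n₀) fun r => ?_
  by_cases hall : ∀ G ∈ V, ∀ k, eval ((fmap ℂ F)^[n₀ + r + Q * k] α) G = 0
  · right
    intro k G hGV
    exact hall G hGV k
  · left
    push Not at hall
    obtain ⟨G, hGV, k, hk⟩ := hall
    obtain ⟨e, he⟩ := hV G hGV
    rcases h e G he r with h1 | h1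
    · exact h1.subset fun k' hk' => hk' G hGV
    · exact absurd (h1 k) hk

theorem fd_main (N d m : ℕ) (hd : 2 ≤ d) (hm : 1 ≤ m) :
    ∃ c : ℝ, 0 < c ∧ ∀ (A : Fin (N + 1) → MvPolynomial (Fin (N + 1)) ℝ) (ε : ℝ)
      (F₀ : Fin (N + 1) → MvPolynomial (Fin (N + 1)) ℤ), (∀ i, (A i).IsHomogeneous d) → 0 < ε →
      (∀ i, (F₀ i).IsHomogeneous d) → ∃ B₀ : ℕ, ∀ B : ℕ, B₀ ≤ B →
        (cbox N d m A ε F₀ B).Finite ∧ c * ((cbox N d m A ε F₀ B).ncard : ℝ) ≤
          (({F ∈ cbox N d m A ε F₀ B | (∀ z, fmap ℂ F z = 0 → z = 0) ∧ FullDML F}).ncard : ℝ) := by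
  obtain ⟨p, hp, hp3, hpm, Fb, hFb, hGood⟩ := exists_sym N d m hd
  have := Fact.mk hp
  have hcop : m.Coprime p := by
    rw [Nat.coprime_comm, hp.coprime_iff_not_dvd]
    intro hdvd
    have := Nat.le_of_dvd (by omega) hdvd
    omega
  obtain ⟨c, hc, h⟩ := cbox_count N d m hm p hp hcop Fb hFb
  refine ⟨c, hc, fun A ε F₀ hA hε hF₀ => ?_⟩
  obtain ⟨B₀, hB₀⟩ := h A ε F₀ hA hε hF₀
  refine ⟨B₀, fun B hB => ?_⟩
  obtain ⟨hfin, h1⟩ := hB₀ B hB
  refine ⟨hfin, h1.trans (Nat.cast_le.2 (Set.ncard_le_ncard ?_ (hfin.subset fun F hF => hF.1)))⟩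
  rintro F ⟨hF, hdvd⟩
  have hFhom : ∀ i, (F i).IsHomogeneous d := fun i => (hF i).1
  have hFG : GoodAt p F := goodAt_congr hp hdvd hGood
  exact ⟨hF, isEndo F hFhom hFG, fullDML hp3 F hFhom hFG⟩

end

end Pool.Agent.Helper26.FD
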